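import Pool.Agent.Lib.H70W.Main

/-! # Final statements of H70W -/

open Polynomial Filter

namespace Pool.Agent.Lib.H70W

theorem aeval_ne_zero {ζ : ℝ} (h : Transcendental ℤ ζ) {P : ℤ[X]} (hP : P ≠ 0) :
    aeval ζ P ≠ 0 := by
  intro h0
  exact h ⟨P, hP, h0⟩

theorem mem_exact (n : ℕ) (hn : 1 ≤ n) (ζ : ℝ) (hζ : Transcendental ℤ ζ) (w η : ℝ)
    (hη : 0 < η) (hw : 0 < w) (h : w ∈ UnifSet n ζ) : w - η ∈ ExactSet n ζ := by
  set ε : ℝ := min (w / 4) (η / (5 + 3 * w)) with hεdef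
  have hε : 0 < ε := lt_min (by linarith) (by positivity)
  have hε1 : 4 * ε ≤ w := by
    have := min_le_left (w / 4) (η / (5 + 3 * w))
    linarith
  have hε2 : 5 * ε + 3 * ε * w ≤ η := by
    have h1 := min_le_right (w / 4) (η / (5 + 3 * w))
    rw [← hεdef, le_div_iff₀ (by positivity)] at h1
    linarith
  show ∃ᶠ X : ℝ in atTop, _
  rw [frequently_atTop]
  intro a
  obtain ⟨Y, hY, F, hF1, hF2, hF3, hF4⟩ := step n hn ζ hζ w ε hε hε1 h (max 1 a)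
  have hY1 : 1 ≤ Y := (le_max_left _ _).trans hY
  have hYa : a ≤ Y := (le_max_right _ _).trans hY
  have hYX : Y ≤ Y ^ (1 + 3 * ε) := by
    nth_rewrite 1 [← Real.rpow_one Y]
    exact Real.rpow_le_rpow_of_exponent_le hY1 (by linarith)
  refine ⟨Y ^ (1 + 3 * ε), hYa.trans hYX, F, hF1, hF2, hF3,
    abs_pos.2 (aeval_ne_zero hζ hF1.ne_zero), hF4.trans ?_⟩
  rw [← Real.rpow_mul (by linarith)]
  apply Real.rpow_le_rpow_of_exponent_le hY1
  nlinarith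

theorem mem_unif_of_lt (n : ℕ) (ζ : ℝ) (hζ : Transcendental ℤ ζ) (w : ℝ) (hw : w < n) :
    w ∈ UnifSet n ζ := by
  obtain ⟨K, hK, hP⟩ := dirichlet n ζ
  show ∀ᶠ X : ℝ in atTop, _
  have hpos : 0 < (n : ℝ) - w := by linarith
  filter_upwards [eventually_ge_atTop 1,
    (tendsto_rpow_atTop hpos).eventually_ge_atTop K] with X hX hKX
  obtain ⟨P, hP0, hPn, hPh, hPζ⟩ := hP X hX
  refine ⟨P, hP0, hPn, hPh, abs_pos.2 (aeval_ne_zero hζ hP0), hPζ.trans ?_⟩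
  have hX0 : 0 < X := by linarith
  calc K * X ^ (-(n : ℝ)) ≤ X ^ ((n : ℝ) - w) * X ^ (-(n : ℝ)) :=
        mul_le_mul_of_nonneg_right hKX (Real.rpow_pos_of_pos hX0 _).le
    _ = X ^ (-w) := by rw [← Real.rpow_add hX0]; ring_nf

theorem le_of_forall_sub (x : ℝ) (S : EReal) (h : ∀ η : ℝ, 0 < η → ((x - η : ℝ) : EReal) ≤ S) :
    (x : EReal) ≤ S := by
  by_contra hlt
  rw [not_le] at hlt
  obtain ⟨r, hr1, hr2⟩ := EReal.lt_iff_exists_real_btwn.1 hlt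
  have hr3 : r < x := by exact_mod_cast hr2
  have h1 := h (x - r) (by linarith)
  rw [sub_sub_cancel] at h1
  exact absurd h1 (not_le.2 hr1)

theorem le_unifExp (n : ℕ) (ζ : ℝ) (hζ : Transcendental ℤ ζ) :
    (n : EReal) ≤ unifExp n ζ := by
  have h : (((n : ℝ) : ℝ) : EReal) ≤ unifExp n ζ := by
    apply le_of_forall_sub
    intro η hη
    apply le_sSup
    exact ⟨_, mem_unif_of_lt n ζ hζ _ (by linarith), rfl⟩
  exact_mod_cast h

theorem unifExp_le_exactExp (n : ℕ) (hn : 1 ≤ n) (ζ : ℝ) (hζ : Transcendental ℤ ζ) :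
    unifExp n ζ ≤ exactExp n ζ := by
  have key : ∀ w : ℝ, 0 < w → w ∈ UnifSet n ζ → (w : EReal) ≤ exactExp n ζ := by
    intro w hw h
    apply le_of_forall_sub
    intro η hη
    apply le_sSup
    exact ⟨_, mem_exact n hn ζ hζ w η hη hw h, rfl⟩
  apply sSup_le
  rintro _ ⟨w, hw, rfl⟩
  rcases lt_or_ge 0 w with h0 | h0
  · exact key w h0 hw
  · have hn' : (1 : ℝ) ≤ n := by exact_mod_cast hn
    have h1 := key (1 / 2) (by norm_num) (mem_unif_of_lt n ζ hζ _ (by linarith))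
    refine le_trans ?_ h1
    exact EReal.coe_le_coe_iff.2 (by linarith : w ≤ 1 / 2)

theorem main (n : ℕ) (hn : 1 ≤ n) (ζ : ℝ) (hζ : Transcendental ℤ ζ) :
    (n : EReal) ≤ unifExp n ζ ∧ unifExp n ζ ≤ exactExp n ζ :=
  ⟨le_unifExp n ζ hζ, unifExp_le_exactExp n hn ζ hζ⟩

end Pool.Agent.Lib.H70W
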