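import Mathlib

/-!
# H70W: exact-degree Diophantine approximation, w_{=n}(zeta) >= n for every n

Definitions for MP_5a602a_nt.
-/

open Polynomial Filter

namespace Pool.Agent.Lib.H70W

/-- The height of an integer polynomial: the maximum of the absolute values of its coefficients. -/
noncomputable def height (P : ℤ[X]) : ℕ := P.support.sup fun i => (P.coeff i).natAbs

/-- The reals `w` such that for arbitrarily large `X` the system
`H(P) ≤ X`, `0 < |P(ζ)| ≤ X^(-w)` has an irreducible solution of degree exactly `n`. -/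
def ExactSet (n : ℕ) (ζ : ℝ) : Set ℝ :=
  {w : ℝ | ∃ᶠ X : ℝ in atTop, ∃ P : ℤ[X], Irreducible P ∧ P.natDegree = n ∧
    (height P : ℝ) ≤ X ∧ 0 < |aeval ζ P| ∧ |aeval ζ P| ≤ X ^ (-w)}

/-- The exact-degree exponent `w_{=n}(ζ)`. -/
noncomputable def exactExp (n : ℕ) (ζ : ℝ) : EReal :=
  sSup ((fun w : ℝ => (w : EReal)) '' ExactSet n ζ)

/-- The reals `w` such that for all sufficiently large `X` the system
`H(P) ≤ X`, `0 < |P(ζ)| ≤ X^(-w)` has a solution `P ≠ 0` of degree at most `n`. -/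
def UnifSet (n : ℕ) (ζ : ℝ) : Set ℝ :=
  {w : ℝ | ∀ᶠ X : ℝ in atTop, ∃ P : ℤ[X], P ≠ 0 ∧ P.natDegree ≤ n ∧
    (height P : ℝ) ≤ X ∧ 0 < |aeval ζ P| ∧ |aeval ζ P| ≤ X ^ (-w)}

/-- The classical uniform exponent `ŵ_n(ζ)`. -/
noncomputable def unifExp (n : ℕ) (ζ : ℝ) : EReal :=
  sSup ((fun w : ℝ => (w : EReal)) '' UnifSet n ζ)

/-- The Mahler measure of an integer polynomial. -/
noncomputable def mm (P : ℤ[X]) : ℝ := (P.map (Int.castRingHom ℂ)).mahlerMeasure

end Pool.Agent.Lib.H70W
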