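import Pool.Agent.Lib.H70W.Defs

/-! # Chunk A1: height and Mahler measure (short)

All four statements follow from Mathlib: `Polynomial.mahlerMeasure_mul`,
`Polynomial.one_le_mahlerMeasure_of_ne_zero` (NumberTheory/MahlerMeasure),
`Polynomial.norm_coeff_le_choose_mul_mahlerMeasure` (choose (natDegree) i <= 2^n),
`Polynomial.mahlerMeasure_le_sum_norm_coeff`. The height lemmas are immediate from the definition
(cf. Results/MP_5a602a_nt/UniformSpectrum: `abs_coeff_le_height`, `height_le`). -/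

open Polynomial Filter

namespace Pool.Agent.Lib.H70W

theorem A1_natAbs (P : ℤ[X]) (i : ℕ) : (P.coeff i).natAbs ≤ height P := by
  by_cases h : i ∈ P.support
  · exact Finset.le_sup (f := fun i => (P.coeff i).natAbs) h
  · rw [Polynomial.notMem_support_iff] at h
    simp [h]

theorem abs_coeff_le_height (P : ℤ[X]) (i : ℕ) : |(P.coeff i : ℝ)| ≤ height P := by
  have h := A1_natAbs P i
  have h2 : ((P.coeff i).natAbs : ℝ) ≤ (height P : ℝ) := by exact_mod_cast h
  rwa [Nat.cast_natAbs, Int.cast_abs] at h2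

theorem height_le_of {P : ℤ[X]} {B : ℝ} (hB : 0 ≤ B) (h : ∀ i, |(P.coeff i : ℝ)| ≤ B) :
    (height P : ℝ) ≤ B := by
  have h1 : height P ≤ ⌊B⌋₊ := by
    unfold height
    apply Finset.sup_le
    intro i _
    apply Nat.le_floor
    rw [Nat.cast_natAbs, Int.cast_abs]
    exact h i
  exact (Nat.le_floor_iff hB).1 h1

theorem mm_mul (P Q : ℤ[X]) : mm (P * Q) = mm P * mm Q := by
  unfold mm
  rw [Polynomial.map_mul, mahlerMeasure_mul]

theorem one_le_mm {P : ℤ[X]} (hP : P ≠ 0) : 1 ≤ mm P :=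
  one_le_mahlerMeasure_of_ne_zero hP

theorem A1_mm_nonneg (P : ℤ[X]) : 0 ≤ mm P := mahlerMeasure_nonneg _

theorem A1_coeff (P : ℤ[X]) (i : ℕ) :
    |(P.coeff i : ℝ)| = ‖(P.map (Int.castRingHom ℂ)).coeff i‖ := by
  rw [coeff_map, eq_intCast, Complex.norm_intCast]

theorem height_le_mm {n : ℕ} {P : ℤ[X]} (hP : P.natDegree ≤ n) : (height P : ℝ) ≤ 2 ^ n * mm P := by
  refine height_le_of (mul_nonneg (by positivity) (A1_mm_nonneg P)) (fun i => ?_)
  rw [A1_coeff]
  refine (norm_coeff_le_choose_mul_mahlerMeasure i _).trans ?_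
  refine mul_le_mul_of_nonneg_right ?_ (mahlerMeasure_nonneg _)
  have h1 : (P.map (Int.castRingHom ℂ)).natDegree ≤ n := natDegree_map_le.trans hP
  calc (((P.map (Int.castRingHom ℂ)).natDegree.choose i : ℕ) : ℝ)
      ≤ ((2 ^ (P.map (Int.castRingHom ℂ)).natDegree : ℕ) : ℝ) := by
        exact_mod_cast Nat.choose_le_two_pow _ _
    _ ≤ ((2 ^ n : ℕ) : ℝ) := by
        exact_mod_cast Nat.pow_le_pow_right (by norm_num) h1
    _ = 2 ^ n := by push_cast; rfl

theorem mm_le_height {n : ℕ} {P : ℤ[X]} (hP : P.natDegree ≤ n) :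
    mm P ≤ (n + 1) * height P := by
  refine (mahlerMeasure_le_sum_norm_coeff _).trans ?_
  have h1 : (P.map (Int.castRingHom ℂ)).natDegree < n + 1 :=
    Nat.lt_succ_of_le (natDegree_map_le.trans hP)
  rw [sum_over_range' _ (fun _ => norm_zero) (n + 1) h1]
  calc ∑ i ∈ Finset.range (n + 1), ‖(P.map (Int.castRingHom ℂ)).coeff i‖
      ≤ ∑ i ∈ Finset.range (n + 1), (height P : ℝ) := by
        refine Finset.sum_le_sum (fun i _ => ?_)
        rw [← A1_coeff]
        exact abs_coeff_le_height P i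
    _ = (n + 1) * height P := by
        rw [Finset.sum_const, Finset.card_range, nsmul_eq_mul]
        push_cast
        ring

/-- `mm` of a divisor of a nonzero polynomial is at most `mm` of the polynomial. -/
theorem mm_le_of_dvd {P Q : ℤ[X]} (hP : P ≠ 0) (h : Q ∣ P) : mm Q ≤ mm P := by
  obtain ⟨R, rfl⟩ := h
  have hR : R ≠ 0 := right_ne_zero_of_mul hP
  rw [mm_mul]
  have h1 := one_le_mm hR
  have h2 := A1_mm_nonneg Q
  nlinarith

/-- Only finitely many integer polynomials of degree at most `n` have bounded Mahler measure, so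
at a transcendental number they are bounded away from zero. -/
theorem exists_lower (n : ℕ) (ζ : ℝ) (hζ : Transcendental ℤ ζ) (H : ℝ) :
    ∃ c : ℝ, 0 < c ∧ ∀ Q : ℤ[X], Q ≠ 0 → Q.natDegree ≤ n → mm Q ≤ H → c ≤ |aeval ζ Q| := by
  classical
  have hfin := finite_mahlerMeasure_le n (Real.toNNReal H)
  set S := hfin.toFinset with hS
  have hmem : ∀ Q : ℤ[X], Q.natDegree ≤ n → mm Q ≤ H → Q ∈ S := by
    intro Q h1 h2
    rw [hS, Set.Finite.mem_toFinset]
    exact ⟨h1, h2.trans (Real.le_coe_toNNReal H)⟩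
  have hpos : ∀ Q : ℤ[X], Q ≠ 0 → 0 < |aeval ζ Q| := by
    intro Q hQ
    refine abs_pos.2 (fun h => ?_)
    exact hζ ⟨Q, hQ, h⟩
  rcases (S.filter (fun Q => Q ≠ 0)).eq_empty_or_nonempty with hE | hE
  · refine ⟨1, one_pos, fun Q h0 h1 h2 => ?_⟩
    exfalso
    have : Q ∈ S.filter (fun Q => Q ≠ 0) := Finset.mem_filter.2 ⟨hmem Q h1 h2, h0⟩
    rw [hE] at this
    simp at this
  · obtain ⟨Q0, hQ0, hmin⟩ := Finset.exists_min_image _ (fun Q : ℤ[X] => |aeval ζ Q|) hE
    refine ⟨|aeval ζ Q0|, hpos Q0 (Finset.mem_filter.1 hQ0).2, fun Q h0 h1 h2 => ?_⟩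
    exact hmin Q (Finset.mem_filter.2 ⟨hmem Q h1 h2, h0⟩)

end Pool.Agent.Lib.H70W
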