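import Pool.Agent.Lib.H70W.Defs

/-! # Chunk A10: Dirichlet (short/medium, pigeonhole)

Proof. Let `N = ⌊X⌋` (`X ≥ 1`). The `(N+1)^(n+1)` polynomials of degree at most `n` with
coefficients in `{0, ..., N}` have values in an interval of length `L = (n+1) N (1+|ζ|)^n`
(values between `- L` and `L`). Divide `[-L, L]` into `(N+1)^(n+1) - 1` equal intervals: two
different polynomials have values in the same interval, their difference `P ≠ 0` has degree at
most `n`, height at most `N ≤ X` and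
`|P(ζ)| ≤ 2L/((N+1)^(n+1) - 1) ≤ K (N+1)^(-n) ≤ K X^(-n)`
(with `(N+1)^(n+1) - 1 ≥ (N+1)^(n+1)/2` and `N ≤ N+1`). -/

open Polynomial Filter

namespace Pool.Agent.Lib.H70W

/-- the polynomial with given coefficients -/
noncomputable def A10_P {n : ℕ} (d : Fin (n + 1) → ℤ) : ℤ[X] := ∑ i, C (d i) * X ^ (i : ℕ)

theorem A10_coeff {n : ℕ} (d : Fin (n + 1) → ℤ) (i : Fin (n + 1)) :
    (A10_P d).coeff (i : ℕ) = d i := by
  unfold A10_P
  rw [finsetSum_coeff, Finset.sum_eq_single i]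
  · rw [coeff_C_mul_X_pow, if_pos rfl]
  · intro j _ hj
    rw [coeff_C_mul_X_pow, if_neg]
    intro h
    exact hj (Fin.ext h.symm)
  · intro h
    exact absurd (Finset.mem_univ i) h

theorem A10_deg {n : ℕ} (d : Fin (n + 1) → ℤ) : (A10_P d).natDegree ≤ n := by
  unfold A10_P
  refine natDegree_sum_le_of_forall_le _ _ (fun i _ => ?_)
  refine (natDegree_C_mul_X_pow_le _ _).trans ?_
  have := i.2
  omega

theorem A10_aeval {n : ℕ} (d : Fin (n + 1) → ℤ) (ζ : ℝ) :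
    aeval ζ (A10_P d) = ∑ i, (d i : ℝ) * ζ ^ (i : ℕ) := by
  unfold A10_P
  rw [map_sum]
  refine Finset.sum_congr rfl (fun i _ => ?_)
  rw [map_mul, map_pow, aeval_X, aeval_C]
  simp

theorem dirichlet (n : ℕ) (ζ : ℝ) :
    ∃ K : ℝ, 0 < K ∧ ∀ X : ℝ, 1 ≤ X → ∃ P : ℤ[X], P ≠ 0 ∧ P.natDegree ≤ n ∧
      (height P : ℝ) ≤ X ∧ |aeval ζ P| ≤ K * X ^ (-(n : ℝ)) := by
  classical
  obtain ⟨S, hS⟩ : ∃ S : ℝ, S = ∑ i : Fin (n + 1), |ζ| ^ (i : ℕ) := ⟨_, rfl⟩
  have hS1 : 1 ≤ S := by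
    rw [hS]
    have h1 : |ζ| ^ ((0 : Fin (n + 1)) : ℕ) ≤ ∑ i : Fin (n + 1), |ζ| ^ (i : ℕ) :=
      Finset.single_le_sum (f := fun i : Fin (n + 1) => |ζ| ^ (i : ℕ))
        (fun i _ => pow_nonneg (abs_nonneg ζ) _) (Finset.mem_univ 0)
    simpa using h1
  refine ⟨8 * S, by linarith, fun x hx => ?_⟩
  obtain ⟨N, hN⟩ : ∃ N : ℕ, N = ⌊x⌋₊ := ⟨_, rfl⟩
  have hx0 : 0 ≤ x := by linarith
  have hNx : (N : ℝ) ≤ x := by rw [hN]; exact Nat.floor_le hx0
  have hxN : x < N + 1 := by rw [hN]; exact Nat.lt_floor_add_one x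
  have hN1 : 1 ≤ N := by rw [hN]; exact Nat.le_floor (by exact_mod_cast hx)
  have hNR : (1 : ℝ) ≤ N := by exact_mod_cast hN1
  obtain ⟨M, hM⟩ : ∃ M : ℕ, M + 1 = (N + 1) ^ (n + 1) :=
    ⟨(N + 1) ^ (n + 1) - 1, Nat.sub_add_cancel (Nat.one_le_pow _ _ (by omega))⟩
  have hM2 : 2 ≤ M + 1 := by
    rw [hM]
    calc 2 ≤ N + 1 := by omega
      _ = (N + 1) ^ 1 := (pow_one _).symm
      _ ≤ (N + 1) ^ (n + 1) := Nat.pow_le_pow_right (by omega) (by omega)
  have hM1 : 1 ≤ M := by omega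
  have hMR : (1 : ℝ) ≤ M := by exact_mod_cast hM1
  obtain ⟨val, hval⟩ : ∃ val : (Fin (n + 1) → Fin (N + 1)) → ℝ,
      val = fun f => ∑ i : Fin (n + 1), ((f i : ℕ) : ℝ) * ζ ^ (i : ℕ) := ⟨_, rfl⟩
  obtain ⟨L, hL⟩ : ∃ L : ℝ, L = N * S := ⟨_, rfl⟩
  have hL0 : 0 < L := by rw [hL]; positivity
  have hvalb : ∀ f, |val f| ≤ L := by
    intro f
    rw [hval, hL, hS, Finset.mul_sum]
    refine (Finset.abs_sum_le_sum_abs _ _).trans (Finset.sum_le_sum (fun i _ => ?_))
    rw [abs_mul, abs_pow, Nat.abs_cast]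
    refine mul_le_mul_of_nonneg_right ?_ (pow_nonneg (abs_nonneg ζ) _)
    exact_mod_cast Nat.lt_succ_iff.1 (f i).2
  -- the boxes
  obtain ⟨g, hg⟩ : ∃ g : (Fin (n + 1) → Fin (N + 1)) → ℝ,
      g = fun f => (val f + 2 * L) / (4 * L) * M := ⟨_, rfl⟩
  have hg0 : ∀ f, 0 ≤ g f := by
    intro f
    rw [hg]
    have := (abs_le.1 (hvalb f)).1
    have h1 : 0 ≤ val f + 2 * L := by linarith
    positivity
  have hgM : ∀ f, g f < M := by
    intro f
    rw [hg]
    have h1 := (abs_le.1 (hvalb f)).2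
    have h2 : (val f + 2 * L) / (4 * L) < 1 := by
      rw [div_lt_one (by positivity)]
      linarith
    have h3 : (0 : ℝ) < M := by linarith
    have := mul_lt_mul_of_pos_right h2 h3
    rwa [one_mul] at this
  have hpig : ∃ f f' : Fin (n + 1) → Fin (N + 1), f ≠ f' ∧ ⌊g f⌋₊ = ⌊g f'⌋₊ := by
    have h1 : (Finset.range M).card < (Finset.univ : Finset (Fin (n + 1) → Fin (N + 1))).card := by
      rw [Finset.card_range, Finset.card_univ, Fintype.card_fun, Fintype.card_fin,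
        Fintype.card_fin, ← hM]
      omega
    obtain ⟨f, _, f', _, hne, heq⟩ := Finset.exists_ne_map_eq_of_card_lt_of_maps_to h1
      (f := fun f => ⌊g f⌋₊) (fun f _ => by
        rw [Finset.mem_coe, Finset.mem_range, Nat.floor_lt (hg0 f)]
        exact hgM f)
    exact ⟨f, f', hne, heq⟩
  obtain ⟨f, f', hne, heq⟩ := hpig
  have hgd : |g f - g f'| ≤ 1 := by
    have a1 := Nat.floor_le (hg0 f)
    have a2 := Nat.lt_floor_add_one (g f)
    have b1 := Nat.floor_le (hg0 f')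
    have b2 := Nat.lt_floor_add_one (g f')
    rw [heq] at a1 a2
    rw [abs_le]
    constructor <;> linarith
  have hvd : |val f - val f'| ≤ 4 * L / M := by
    have h1 : val f - val f' = (g f - g f') * (4 * L / M) := by
      rw [hg]
      field_simp
      ring
    rw [h1, abs_mul, abs_of_nonneg (by positivity : (0 : ℝ) ≤ 4 * L / M)]
    have := mul_le_mul_of_nonneg_right hgd (by positivity : (0 : ℝ) ≤ 4 * L / M)
    rwa [one_mul] at this
  obtain ⟨d, hd⟩ : ∃ d : Fin (n + 1) → ℤ, d = fun i => ((f i : ℕ) : ℤ) - ((f' i : ℕ) : ℤ) := ⟨_, rfl⟩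
  have hdb : ∀ i, (d i).natAbs ≤ N := by
    intro i
    rw [hd]
    have h1 := (f i).2
    have h2 := (f' i).2
    simp only
    omega
  refine ⟨A10_P d, ?_, A10_deg d, ?_, ?_⟩
  · intro h0
    apply hne
    funext i
    have h1 := A10_coeff d i
    rw [h0, coeff_zero, hd] at h1
    simp only at h1
    apply Fin.ext
    omega
  · refine le_trans ?_ hNx
    have h1 : height (A10_P d) ≤ N := by
      unfold height
      refine Finset.sup_le (fun i hi => ?_)
      have h2 : i < n + 1 := by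
        by_contra hc
        have h3 : (A10_P d).coeff i = 0 :=
          coeff_eq_zero_of_natDegree_lt (lt_of_le_of_lt (A10_deg d) (by omega))
        exact (mem_support_iff.1 hi) h3
      have h3 := A10_coeff d ⟨i, h2⟩
      simp only at h3
      rw [h3]
      exact hdb _
    exact_mod_cast h1
  · have h1 : aeval ζ (A10_P d) = val f - val f' := by
      rw [A10_aeval, hval, hd, ← Finset.sum_sub_distrib]
      refine Finset.sum_congr rfl (fun i _ => ?_)
      push_cast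
      ring
    rw [h1]
    refine hvd.trans ?_
    have hxp : 0 < x ^ n := by positivity
    have h2 : x ^ (-(n : ℝ)) = (x ^ n)⁻¹ := by
      rw [Real.rpow_neg hx0, Real.rpow_natCast]
    have h3 : x ^ n ≤ ((N : ℝ) + 1) ^ n := pow_le_pow_left₀ hx0 hxN.le n
    have h4 : ((N : ℝ) + 1) ^ (n + 1) ≤ 2 * M := by
      have h5 : ((M : ℝ) + 1) = ((N : ℝ) + 1) ^ (n + 1) := by exact_mod_cast hM
      linarith
    have h6 : (N : ℝ) * x ^ n ≤ 2 * M := by
      have h7 : (N : ℝ) * x ^ n ≤ ((N : ℝ) + 1) * ((N : ℝ) + 1) ^ n :=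
        mul_le_mul (by linarith) h3 hxp.le (by linarith)
      rw [pow_succ'] at h4
      linarith
    rw [h2, hL, ← div_eq_mul_inv, div_le_div_iff₀ (by linarith) hxp]
    nlinarith

end Pool.Agent.Lib.H70W
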