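import Pool.Agent.Lib.H70W.A1

/-! # Chunk A2: a good factor (medium)

Proof. Suppose that every irreducible `R ∣ F` of positive degree has
`t < |R(ζ)| (mm R)^w`. Claim: every `G ∣ F` satisfies `t ^ (deg G) ≤ |G(ζ)| (mm G)^w`, with strict
inequality if `deg G ≥ 1`. Induction on `deg G`. Degree 0: `G = C a` with `a ≠ 0`,
`|G(ζ)| = |a| ≥ 1` and `mm G ≥ 1`. Degree at least 1: the primitive part of `G` is not a unit, it
has an irreducible factor `R` (`WfDvdMonoid.exists_irreducible_factor`), `R` is primitive (a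
divisor of a primitive polynomial), hence of positive degree (a primitive polynomial of degree 0
is a unit), `G = R * G'` with `deg G' < deg G`; both `|.(ζ)|` and `mm` are multiplicative, and
`t ≤ t ^ (deg R)`... precisely `t ^ (deg G) = t ^ (deg R) t ^ (deg G') ≤ t * t ^ (deg G')` as
`t ≤ 1`, `deg R ≥ 1`. For `G = F`: `t ^ n ≤ t ^ (deg F) < |F(ζ)| (mm F)^w`, a contradiction. -/

open Polynomial Filter

namespace Pool.Agent.Lib.H70W

/-- A polynomial of positive degree has an irreducible divisor of positive degree. -/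
private theorem exists_irred_dvd_pos {G : ℤ[X]} (hG : 1 ≤ G.natDegree) :
    ∃ R : ℤ[X], Irreducible R ∧ 1 ≤ R.natDegree ∧ R ∣ G := by
  have hG0 : G ≠ 0 := by
    rintro rfl
    simp at hG
  have hpd : G.primPart.natDegree = G.natDegree := G.natDegree_primPart
  have hpp : G.primPart ≠ 0 := by
    intro h0
    rw [h0] at hpd
    simp at hpd
    omega
  have hnu : ¬ IsUnit G.primPart := by
    intro hu
    have := Polynomial.natDegree_eq_zero_of_isUnit hu
    omega
  obtain ⟨R, hR, hRd⟩ := WfDvdMonoid.exists_irreducible_factor hnu hpp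
  have hRp : R.IsPrimitive := isPrimitive_of_dvd G.isPrimitive_primPart hRd
  refine ⟨R, hR, ?_, hRd.trans G.primPart_dvd⟩
  by_contra hlt
  have h0 : R.natDegree = 0 := by omega
  rw [Polynomial.eq_C_of_natDegree_eq_zero h0] at hRp hR
  have := hRp (R.coeff 0) dvd_rfl
  exact hR.not_isUnit (this.map C)

private theorem mmA2_nonneg (P : ℤ[X]) : 0 ≤ mm P := Polynomial.mahlerMeasure_nonneg _

theorem exists_factor (n : ℕ) (ζ : ℝ) (hζ : Transcendental ℤ ζ) (F : ℤ[X])
    (hF1 : 1 ≤ F.natDegree) (hFn : F.natDegree ≤ n) (w t : ℝ) (hw : 0 ≤ w) (ht : 0 < t)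
    (ht1 : t ≤ 1) (h : |aeval ζ F| * (mm F) ^ w ≤ t ^ n) :
    ∃ R : ℤ[X], Irreducible R ∧ 1 ≤ R.natDegree ∧ R ∣ F ∧ |aeval ζ R| * (mm R) ^ w ≤ t := by
  by_contra hcon
  push Not at hcon
  have hF0 : F ≠ 0 := by
    rintro rfl
    simp at hF1
  have claim : ∀ d : ℕ, ∀ G : ℤ[X], G ∣ F → G.natDegree ≤ d →
      t ^ G.natDegree ≤ |aeval ζ G| * (mm G) ^ w ∧
        (1 ≤ G.natDegree → t ^ G.natDegree < |aeval ζ G| * (mm G) ^ w) := by
    intro d
    induction d with
    | zero =>
      intro G hGF hd
      have hG0 : G ≠ 0 := by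
        rintro rfl
        exact hF0 (zero_dvd_iff.mp hGF)
      have h0 : G.natDegree = 0 := by omega
      refine ⟨?_, fun h1 => by omega⟩
      rw [h0, pow_zero]
      have hc := Polynomial.eq_C_of_natDegree_eq_zero h0
      have hc0 : G.coeff 0 ≠ 0 := by
        intro h00
        rw [h00, C_0] at hc
        exact hG0 hc
      have h1 : (1 : ℝ) ≤ |aeval ζ G| := by
        rw [hc, aeval_C]
        simp only [algebraMap_int_eq, eq_intCast]
        have := Int.one_le_abs hc0
        exact_mod_cast this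
      have h2 : (1 : ℝ) ≤ (mm G) ^ w := Real.one_le_rpow (one_le_mm hG0) hw
      calc (1 : ℝ) = 1 * 1 := by ring
        _ ≤ _ := by gcongr
    | succ d ih =>
      intro G hGF hd
      rcases Nat.lt_or_ge d G.natDegree with hlt | hge
      swap
      · exact ih G hGF hge
      have hG0 : G ≠ 0 := by
        rintro rfl
        exact hF0 (zero_dvd_iff.mp hGF)
      obtain ⟨R, hR, hR1, G', hGG⟩ := exists_irred_dvd_pos (G := G) (by omega)
      have hR0 : R ≠ 0 := hR.ne_zero
      have hG'0 : G' ≠ 0 := by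
        rintro rfl
        apply hG0
        rw [hGG, mul_zero]
      have hdeg : G.natDegree = R.natDegree + G'.natDegree := by
        rw [hGG, natDegree_mul hR0 hG'0]
      have hG'F : G' ∣ F := (Dvd.intro_left R hGG.symm).trans hGF
      have hRF : R ∣ F := (Dvd.intro G' hGG.symm).trans hGF
      have hI := (ih G' hG'F (by omega)).1
      have hRt := hcon R hR hR1 hRF
      have hv : |aeval ζ G| * (mm G) ^ w
          = (|aeval ζ R| * (mm R) ^ w) * (|aeval ζ G'| * (mm G') ^ w) := by
        rw [hGG, map_mul, abs_mul, mm_mul, Real.mul_rpow (mmA2_nonneg R) (mmA2_nonneg G')]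
        ring
      have hpow : t ^ R.natDegree ≤ t := by
        calc t ^ R.natDegree ≤ t ^ 1 := pow_le_pow_of_le_one ht.le ht1 hR1
          _ = t := pow_one t
      have hpos : 0 < t ^ G'.natDegree := pow_pos ht _
      have key : t ^ G.natDegree < |aeval ζ G| * (mm G) ^ w := by
        rw [hv, hdeg, pow_add]
        calc t ^ R.natDegree * t ^ G'.natDegree ≤ t * t ^ G'.natDegree := by gcongr
          _ < (|aeval ζ R| * (mm R) ^ w) * t ^ G'.natDegree := by
            exact mul_lt_mul_of_pos_right hRt hpos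
          _ ≤ _ := by
            have : 0 ≤ |aeval ζ R| * (mm R) ^ w := ht.le.trans hRt.le
            gcongr
      exact ⟨key.le, fun _ => key⟩
  have h1 := (claim F.natDegree F dvd_rfl le_rfl).2 hF1
  have h2 : t ^ n ≤ t ^ F.natDegree := pow_le_pow_of_le_one ht.le ht1 hFn
  linarith

end Pool.Agent.Lib.H70W
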