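import Pool.Agent.Lib.H70W.A2

/-! # Chunk A3: infinitely many good irreducible polynomials of degree at most n (short)

Proof. Let `X` be large and `P` the polynomial given by `w ∈ UnifSet n ζ`. As
`|P(ζ)| ≤ X^(-w) < 1`, `P` is not constant. With `mm P ≤ (n+1) X` (A1)
`|P(ζ)| (mm P)^(w-ε) ≤ X^(-w) ((n+1) X)^(w-ε) = (n+1)^(w-ε) X^(-ε)`, which is at most `t^n` for
`t = min 1 c / 2`, `c` from `exists_lower` for `H = H0`, once `X` is large. `exists_factor` gives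
an irreducible `Q` of positive degree, `Q ∣ P` (so of degree at most `n`), with
`|Q(ζ)| (mm Q)^(w-ε) ≤ t`. As `mm Q ≥ 1`, `|Q(ζ)| ≤ t < c`, so `mm Q > H0`. And `t ≤ 1` gives
`|Q(ζ)| ≤ (mm Q)^(-(w-ε))`. -/

open Polynomial Filter

namespace Pool.Agent.Lib.H70W

theorem exists_irred_large (n : ℕ) (ζ : ℝ) (hζ : Transcendental ℤ ζ) (w ε : ℝ) (hε : 0 < ε)
    (hw : ε ≤ w) (h : w ∈ UnifSet n ζ) (H0 : ℝ) :
    ∃ Q : ℤ[X], Irreducible Q ∧ 1 ≤ Q.natDegree ∧ Q.natDegree ≤ n ∧ H0 ≤ mm Q ∧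
      |aeval ζ Q| ≤ (mm Q) ^ (-(w - ε)) := by
  obtain ⟨c, hc, hcl⟩ := exists_lower n ζ hζ H0
  set t : ℝ := min 1 c / 2 with ht
  have hm : 0 < min 1 c := lt_min one_pos hc
  have ht0 : 0 < t := by rw [ht]; linarith
  have ht1 : t ≤ 1 := by
    have : min 1 c ≤ 1 := min_le_left _ _
    rw [ht]; linarith
  have htc : t < c := by
    have : min 1 c ≤ c := min_le_right _ _
    rw [ht]; linarith
  have hn1 : (0 : ℝ) < (n : ℝ) + 1 := by positivity
  have hlim : Tendsto (fun X : ℝ => ((n : ℝ) + 1) ^ (w - ε) * X ^ (-ε)) atTop (nhds 0) := by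
    have := (tendsto_rpow_neg_atTop hε).const_mul (((n : ℝ) + 1) ^ (w - ε))
    rwa [mul_zero] at this
  have hev : ∀ᶠ X : ℝ in atTop, ((n : ℝ) + 1) ^ (w - ε) * X ^ (-ε) < t ^ n :=
    hlim.eventually (gt_mem_nhds (pow_pos ht0 n))
  have hU : ∀ᶠ X : ℝ in atTop, ∃ P : ℤ[X], P ≠ 0 ∧ P.natDegree ≤ n ∧
    (height P : ℝ) ≤ X ∧ 0 < |aeval ζ P| ∧ |aeval ζ P| ≤ X ^ (-w) := h
  obtain ⟨X, ⟨hX1, hX2⟩, P, hP0, hPn, hPh, _, hPv⟩ := ((hev.and (eventually_gt_atTop 1)).and hU).exists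
  have hX0 : 0 < X := by linarith
  have hw0 : 0 < w := lt_of_lt_of_le hε hw
  have hPd : 1 ≤ P.natDegree := by
    by_contra hlt
    have h0 : P.natDegree = 0 := by omega
    have hcst := Polynomial.eq_C_of_natDegree_eq_zero h0
    have hc0 : P.coeff 0 ≠ 0 := by
      intro h00
      rw [h00, C_0] at hcst
      exact hP0 hcst
    have h1 : (1 : ℝ) ≤ |aeval ζ P| := by
      rw [hcst, aeval_C]
      simp only [algebraMap_int_eq, eq_intCast]
      have := Int.one_le_abs hc0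
      exact_mod_cast this
    have h2 : X ^ (-w) < 1 := Real.rpow_lt_one_of_one_lt_of_neg hX2 (by linarith)
    linarith
  have hmmP : mm P ≤ ((n : ℝ) + 1) * X := by
    calc mm P ≤ (n + 1) * height P := mm_le_height hPn
      _ ≤ ((n : ℝ) + 1) * X := by gcongr
  have hmmP0 : 0 ≤ mm P := zero_le_one.trans (one_le_mm hP0)
  have hval : |aeval ζ P| * (mm P) ^ (w - ε) ≤ t ^ n := by
    calc |aeval ζ P| * (mm P) ^ (w - ε) ≤ X ^ (-w) * (((n : ℝ) + 1) * X) ^ (w - ε) := by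
          have : (0 : ℝ) ≤ w - ε := by linarith
          gcongr
      _ = ((n : ℝ) + 1) ^ (w - ε) * X ^ (-ε) := by
          rw [Real.mul_rpow hn1.le hX0.le, show -ε = -w + (w - ε) by ring, Real.rpow_add hX0]
          ring
      _ ≤ t ^ n := hX1.le
  obtain ⟨Q, hQ, hQ1, hQP, hQv⟩ := exists_factor n ζ hζ P hPd hPn (w - ε) t (by linarith) ht0 ht1
    hval
  have hQn : Q.natDegree ≤ n := (natDegree_le_of_dvd hQP hP0).trans hPn
  have hQ0 : Q ≠ 0 := hQ.ne_zero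
  have hmQ := one_le_mm hQ0
  have hmQ0 : 0 < mm Q := by linarith
  refine ⟨Q, hQ, hQ1, hQn, ?_, ?_⟩
  · by_contra hlt
    have h1 := hcl Q hQ0 hQn (le_of_not_ge hlt)
    have h2 : (1 : ℝ) ≤ (mm Q) ^ (w - ε) := Real.one_le_rpow hmQ (by linarith)
    have h3 : |aeval ζ Q| ≤ |aeval ζ Q| * (mm Q) ^ (w - ε) :=
      le_mul_of_one_le_right (abs_nonneg _) h2
    linarith
  · rw [Real.rpow_neg hmQ0.le, ← one_div, le_div_iff₀ (Real.rpow_pos_of_pos hmQ0 _)]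
    linarith

end Pool.Agent.Lib.H70W
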