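import Pool.Agent.Lib.H70W.A1

/-! # Chunk A4: the polynomial S (medium)

Proof. `S = ∏ (X - s)` over `n - deg Q` distinct integers `s` in `{0, ..., 3n}` which are neither
roots of `P` nor of `Q` (there are `3n+1` candidates, at most `2n` are excluded).
`mm (X - s) = max 1 |s| ≤ 3n+1` (Mathlib: `mahlerMeasure_X_sub_C`), `|ζ - s| ≤ |ζ| + 3n + 1`.
`Q` is primitive, hence irreducible over the rationals, separable (characteristic zero), so its
image over the complex numbers is squarefree; the linear factors are distinct and not roots of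
`Q`. Coprimality with `P`: over the rationals `Q` does not divide `P` (Gauss: `Q` primitive, and
`Q` does not divide the primitive part of `P`), so `Q` and `P` are coprime over the rationals,
hence over the complex numbers (`IsCoprime.map`), and `X - s` does not divide `P`. -/

open Polynomial Filter

namespace Pool.Agent.Lib.H70W

private theorem isCoprime_X_sub_C_of {F : ℤ[X]} {s : ℤ} (h : ¬ F.IsRoot s) :
    IsCoprime (F.map (Int.castRingHom ℂ)) (X - C (s : ℂ)) := by
  have hirr : Irreducible (X - C (s : ℂ)) := irreducible_X_sub_C _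
  refine (hirr.coprime_iff_not_dvd.mpr ?_).symm
  rw [dvd_iff_isRoot, IsRoot.def, eval_map]
  intro h0
  apply h
  rw [IsRoot.def]
  have h1 : eval₂ (Int.castRingHom ℂ) ((Int.castRingHom ℂ) s) F = 0 := by
    simpa using h0
  rw [eval₂_at_apply] at h1
  simpa using h1

theorem exists_S (n : ℕ) (P Q : ℤ[X]) (hQ : Irreducible Q) (hd : 1 ≤ Q.natDegree)
    (hdn : Q.natDegree ≤ n) (hP : P ≠ 0) (hPn : P.natDegree ≤ n) (hPQ : ¬ Q ∣ P) :
    ∃ S : ℤ[X], (Q * S).natDegree = n ∧ S ≠ 0 ∧ mm S ≤ (3 * n + 1) ^ n ∧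
      (∀ ζ : ℝ, |aeval ζ S| ≤ (|ζ| + (3 * n + 1)) ^ n) ∧
      Squarefree ((Q * S).map (Int.castRingHom ℂ)) ∧
      IsCoprime (P.map (Int.castRingHom ℂ)) ((Q * S).map (Int.castRingHom ℂ)) := by
  classical
  have hQ0 : Q ≠ 0 := hQ.ne_zero
  -- the set of candidates
  set A : Finset ℤ := (Finset.range (3 * n + 1)).image (fun i : ℕ => (i : ℤ)) with hA
  have hAc : A.card = 3 * n + 1 := by
    rw [hA, Finset.card_image_of_injective _ Nat.cast_injective, Finset.card_range]
  set B : Finset ℤ := (P * Q).roots.toFinset with hB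
  have hBc : B.card ≤ 2 * n := by
    calc B.card ≤ Multiset.card (P * Q).roots := Multiset.toFinset_card_le _
      _ ≤ (P * Q).natDegree := card_roots' _
      _ = P.natDegree + Q.natDegree := natDegree_mul hP hQ0
      _ ≤ 2 * n := by omega
  have hABc : n - Q.natDegree ≤ (A \ B).card := by
    have := Finset.le_card_sdiff B A
    omega
  obtain ⟨T, hTs, hTc⟩ := Finset.exists_subset_card_eq hABc
  have hTA : ∀ s ∈ T, 0 ≤ s ∧ s ≤ 3 * n := by
    intro s hs
    have h1 := (Finset.mem_sdiff.mp (hTs hs)).1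
    rw [hA, Finset.mem_image] at h1
    obtain ⟨i, hi, rfl⟩ := h1
    rw [Finset.mem_range] at hi
    constructor
    · positivity
    · have : i ≤ 3 * n := by omega
      exact_mod_cast this
  have hTB : ∀ s ∈ T, ¬ P.IsRoot s ∧ ¬ Q.IsRoot s := by
    intro s hs
    have h1 := (Finset.mem_sdiff.mp (hTs hs)).2
    rw [hB, Multiset.mem_toFinset, mem_roots (mul_ne_zero hP hQ0), root_mul] at h1
    exact not_or.mp h1
  set S : ℤ[X] := ∏ s ∈ T, (X - C s) with hS
  have hSm : S.Monic := monic_prod_of_monic _ _ fun s _ => monic_X_sub_C s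
  have hSd : S.natDegree = n - Q.natDegree := by
    rw [hS, natDegree_prod_of_monic _ _ fun s _ => monic_X_sub_C s,
      Finset.sum_congr rfl fun s _ => natDegree_X_sub_C s, Finset.sum_const, hTc, smul_eq_mul,
      mul_one]
  have hSmap : S.map (Int.castRingHom ℂ) = ∏ s ∈ T, (X - C (s : ℂ)) := by
    rw [hS, Polynomial.map_prod]
    refine Finset.prod_congr rfl fun s _ => ?_
    simp
  have hcard : T.card ≤ n := by omega
  have h3n : (1 : ℝ) ≤ 3 * n + 1 := by
    have : (0 : ℝ) ≤ n := Nat.cast_nonneg n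
    linarith
  have hQprim : Q.IsPrimitive := hQ.isPrimitive (by omega)
  have hQirr : Irreducible (Q.map (Int.castRingHom ℚ)) :=
    (IsPrimitive.Int.irreducible_iff_irreducible_map_cast hQprim).mp hQ
  have hcomp : (algebraMap ℚ ℂ).comp (Int.castRingHom ℚ) = Int.castRingHom ℂ :=
    RingHom.ext_int _ _
  have hQC : Q.map (Int.castRingHom ℂ) = (Q.map (Int.castRingHom ℚ)).map (algebraMap ℚ ℂ) := by
    rw [Polynomial.map_map, hcomp]
  have hPC : P.map (Int.castRingHom ℂ) = (P.map (Int.castRingHom ℚ)).map (algebraMap ℚ ℂ) := by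
    rw [Polynomial.map_map, hcomp]
  refine ⟨S, ?_, hSm.ne_zero, ?_, ?_, ?_, ?_⟩
  · rw [natDegree_mul hQ0 hSm.ne_zero, hSd]
    omega
  · have h1 : mm S = ∏ s ∈ T, max 1 ‖(s : ℂ)‖ := by
      rw [mm, hSmap]
      have hgen : ∀ T' : Finset ℤ, (∏ s ∈ T', (X - C (s : ℂ))).mahlerMeasure
          = ∏ s ∈ T', max 1 ‖(s : ℂ)‖ := by
        intro T'
        induction T' using Finset.induction_on with
        | empty => simp
        | insert a T'' ha ih =>
          rw [Finset.prod_insert ha, Finset.prod_insert ha, mahlerMeasure_mul, ih,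
            mahlerMeasure_X_sub_C]
      exact hgen T
    rw [h1]
    calc ∏ s ∈ T, max 1 ‖(s : ℂ)‖ ≤ ∏ s ∈ T, (3 * n + 1 : ℝ) := by
          refine Finset.prod_le_prod (fun s _ => by positivity) fun s hs => ?_
          refine max_le h3n ?_
          have h2 := hTA s hs
          have h3 : ‖(s : ℂ)‖ = |(s : ℝ)| := by simp
          rw [h3, abs_of_nonneg (by exact_mod_cast h2.1)]
          have : (s : ℝ) ≤ 3 * n := by exact_mod_cast h2.2
          linarith
      _ = (3 * n + 1 : ℝ) ^ T.card := by rw [Finset.prod_const]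
      _ ≤ (3 * n + 1 : ℝ) ^ n := pow_le_pow_right₀ h3n hcard
  · intro ζ
    have h1 : aeval ζ S = ∏ s ∈ T, (ζ - (s : ℝ)) := by
      rw [hS, map_prod]
      refine Finset.prod_congr rfl fun s _ => ?_
      simp
    have h4 : (1 : ℝ) ≤ |ζ| + (3 * n + 1) := by
      have := abs_nonneg ζ
      linarith
    rw [h1, Finset.abs_prod]
    calc ∏ s ∈ T, |ζ - (s : ℝ)| ≤ ∏ s ∈ T, (|ζ| + (3 * n + 1) : ℝ) := by
          refine Finset.prod_le_prod (fun s _ => abs_nonneg _) fun s hs => ?_
          have h2 := hTA s hs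
          have h3 : |ζ - (s : ℝ)| ≤ |ζ| + |(s : ℝ)| := abs_sub _ _
          rw [abs_of_nonneg (a := (s : ℝ)) (by exact_mod_cast h2.1)] at h3
          have : (s : ℝ) ≤ 3 * n := by exact_mod_cast h2.2
          linarith
      _ = (|ζ| + (3 * n + 1) : ℝ) ^ T.card := by rw [Finset.prod_const]
      _ ≤ (|ζ| + (3 * n + 1) : ℝ) ^ n := pow_le_pow_right₀ h4 hcard
  · apply Separable.squarefree
    rw [Polynomial.map_mul]
    refine Separable.mul ?_ ?_ ?_
    · rw [hQC]
      exact hQirr.separable.map
    · rw [hSmap]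
      exact (separable_prod_X_sub_C_iff' (s := T) (f := fun s : ℤ => (s : ℂ))).mpr
        fun x _ y _ hxy => by exact_mod_cast hxy
    · rw [hSmap]
      exact IsCoprime.prod_right fun s hs => isCoprime_X_sub_C_of (hTB s hs).2
  · rw [Polynomial.map_mul]
    refine IsCoprime.mul_right ?_ ?_
    · rw [hQC, hPC]
      refine IsCoprime.map ?_ (mapRingHom (algebraMap ℚ ℂ))
      refine (hQirr.coprime_iff_not_dvd.mpr ?_).symm
      intro hdv
      apply hPQ
      have hpp : Q.map (Int.castRingHom ℚ) ∣ P.primPart.map (Int.castRingHom ℚ) := by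
        have h5 : P.map (Int.castRingHom ℚ)
            = C ((P.content : ℤ) : ℚ) * P.primPart.map (Int.castRingHom ℚ) := by
          conv_lhs => rw [P.eq_C_content_mul_primPart]
          simp
        rw [h5] at hdv
        have hc0 : ((P.content : ℤ) : ℚ) ≠ 0 := by
          have : P.content ≠ 0 := by
            intro h0
            exact hP (content_eq_zero_iff.mp h0)
          exact_mod_cast this
        have hu : IsUnit (C ((P.content : ℤ) : ℚ)) := (isUnit_iff_ne_zero.mpr hc0).map C
        exact (hu.dvd_mul_left).mp hdv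
      exact ((IsPrimitive.Int.dvd_iff_map_cast_dvd_map_cast Q P.primPart hQprim).mpr
        hpp).trans P.primPart_dvd
    · rw [hSmap]
      exact IsCoprime.prod_right fun s hs => isCoprime_X_sub_C_of (hTB s hs).1

end Pool.Agent.Lib.H70W
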