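import Pool.Agent.Lib.H70W.Defs

/-! # Chunk A5: the divisors span everything (medium; the heart of the proof)

Proof. All polynomials over the complex numbers. Put `F_b = P + b R`, `F_b = D_b G_b`,
`deg G_b ≥ 1`.

(1) For fixed `t`, `R(t) P(T) - P(t) R(T)` vanishes at `T = t`; let `Ψ(t) = φ_T` of its quotient
by `T - t`. `Ψ` is a polynomial function of `t` of degree at most `n - 1`: for `P = Σ p_i T^i`,
`R = Σ r_j T^j`, the quotient is the sum over `i, j ≤ n` of
`p_i r_j (T^i t^j - t^i T^j)/(T - t)`, and each of these is a sum of monomials `± T^a t^c` with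
`a, c ≤ n - 1` (`a + c = i + j - 1`). (One may define `Ψ` by such a formula; for instance with
`divX`-like sums, or with `P = Σ`, using `(T^i - t^i)/(T - t) = Σ_{a+c=i-1} T^a t^c` applied to
`R(t) (P(T) - P(t)) - P(t) (R(T) - R(t))` over `T - t`; to see that the degree in `t` is at most
`n - 1` use the symmetry of the whole expression, i.e. the formula with monomials.)

(2) For `b ∈ B` choose a root `t_b` of `G_b`. `P(t_b) = - b R(t_b)`, so
`R(t_b) P(T) - P(t_b) R(T) = R(t_b) F_b(T)` and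
`Ψ(t_b) = R(t_b) φ(F_b/(T - t_b)) = R(t_b) φ(D_b (G_b/(T - t_b))) = 0`,
because `G_b/(T - t_b)` is a combination of `T^i` with `i ≤ n - 1 - deg D_b`.

(3) The `t_b` are distinct: `t_b = t_c` with `b ≠ c` gives `R(t_b) = 0 = P(t_b)`, against
coprimality. So `Ψ` has at least `n` distinct roots and degree at most `n - 1`: `Ψ = 0`.

(4) For every root `s` of `R`: `0 = Ψ(s) = - P(s) φ(R/(T - s))` and `P(s) ≠ 0`, so
`φ(R/(T - s)) = 0`. As `R` has `n` distinct roots, the `n` polynomials `R/(T - s)` are linearly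
independent (evaluate at the roots), so they span the polynomials of degree at most `n - 1`
(or: Lagrange interpolation, every `G` of degree `< n` is `Σ_s G(s)/R'(s) · R/(T - s)`), and
`φ = 0` there.

(5) `B` is not empty if `n ≥ 1`; for `b ∈ B`, `φ(F_b) = φ(D_b G_b) = 0` and `F_b` has degree
exactly `n`, so `φ(T^n) = 0` by (4). -/

open Polynomial Filter

namespace Pool.Agent.Lib.H70W

theorem A5_kill {n : ℕ} {Db : ℤ[X]} (φ : ℂ[X] →ₗ[ℂ] ℂ)
    (hφ : ∀ i : ℕ, i + Db.natDegree ≤ n → φ ((Db * X ^ i).map (Int.castRingHom ℂ)) = 0)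
    (Q : ℂ[X]) (hQ : Q.natDegree + Db.natDegree ≤ n) :
    φ (Db.map (Int.castRingHom ℂ) * Q) = 0 := by
  rw [Q.as_sum_range_C_mul_X_pow, Finset.mul_sum, map_sum]
  refine Finset.sum_eq_zero (fun i hi => ?_)
  rw [Finset.mem_range] at hi
  have h1 : Db.map (Int.castRingHom ℂ) * (C (Q.coeff i) * X ^ i) =
      Q.coeff i • ((Db * X ^ i).map (Int.castRingHom ℂ)) := by
    rw [Polynomial.map_mul, Polynomial.map_pow, map_X, smul_eq_C_mul]
    ring
  rw [h1, map_smul, hφ i (by omega), smul_zero]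

/-- the polynomials `F_b / (T - t_b)` -/
theorem A5_one {n : ℕ} (hn : 1 ≤ n) {P R Db : ℤ[X]} {b : ℤ} (φ : ℂ[X] →ₗ[ℂ] ℂ)
    (h1 : (P + C b * R).natDegree = n) (h2 : Db ∣ P + C b * R) (h3 : Db.natDegree < n)
    (hφ : ∀ i : ℕ, i + Db.natDegree ≤ n → φ ((Db * X ^ i).map (Int.castRingHom ℂ)) = 0) :
    ∃ (t : ℂ) (H : ℂ[X]), (X - C t) * H = P.map (Int.castRingHom ℂ) +
      C (b : ℂ) * R.map (Int.castRingHom ℂ) ∧ H.natDegree < n ∧ φ H = 0 ∧
      φ (P.map (Int.castRingHom ℂ) + C (b : ℂ) * R.map (Int.castRingHom ℂ)) = 0 := by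
  obtain ⟨G, hG⟩ := h2
  have hinj : Function.Injective (Int.castRingHom ℂ) := Int.cast_injective
  have hF0 : P + C b * R ≠ 0 := by
    intro h0
    rw [h0, natDegree_zero] at h1
    omega
  have hDG : Db * G ≠ 0 := by rw [← hG]; exact hF0
  have hDb0 : Db ≠ 0 := left_ne_zero_of_mul hDG
  have hG0 : G ≠ 0 := right_ne_zero_of_mul hDG
  have hdeg : Db.natDegree + G.natDegree = n := by
    rw [← natDegree_mul hDb0 hG0, ← hG, h1]
  have hGm : (G.map (Int.castRingHom ℂ)).natDegree = G.natDegree :=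
    natDegree_map_eq_of_injective hinj G
  have hGm0 : G.map (Int.castRingHom ℂ) ≠ 0 := (Polynomial.map_ne_zero_iff hinj).2 hG0
  have hDm : (Db.map (Int.castRingHom ℂ)).natDegree = Db.natDegree :=
    natDegree_map_eq_of_injective hinj Db
  obtain ⟨t, ht⟩ := IsAlgClosed.exists_root (G.map (Int.castRingHom ℂ)) (by
    intro h0
    have h4 := natDegree_eq_zero_iff_degree_le_zero.2 (le_of_eq h0)
    rw [hGm] at h4
    omega)
  obtain ⟨Q, hQ⟩ := dvd_iff_isRoot.2 ht
  have hQ0 : Q ≠ 0 := by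
    rintro rfl
    rw [mul_zero] at hQ
    exact hGm0 hQ
  have hQd : Q.natDegree + 1 = G.natDegree := by
    rw [← hGm, hQ, natDegree_mul (X_sub_C_ne_zero t) hQ0, natDegree_X_sub_C]
    ring
  have hFm : P.map (Int.castRingHom ℂ) + C (b : ℂ) * R.map (Int.castRingHom ℂ) =
      Db.map (Int.castRingHom ℂ) * G.map (Int.castRingHom ℂ) := by
    have h4 := congrArg (Polynomial.map (Int.castRingHom ℂ)) hG
    rw [Polynomial.map_add, Polynomial.map_mul, Polynomial.map_mul, map_C] at h4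
    exact h4
  refine ⟨t, Db.map (Int.castRingHom ℂ) * Q, ?_, ?_, ?_, ?_⟩
  · rw [hFm, hQ]
    ring
  · refine lt_of_le_of_lt natDegree_mul_le ?_
    rw [hDm]
    omega
  · exact A5_kill φ hφ Q (by omega)
  · rw [hFm]
    exact A5_kill φ hφ _ (by rw [hGm]; omega)

/-- linear independence -/
theorem A5_ind {n : ℕ} {p r : ℂ[X]} (hr : r.natDegree = n) (hn : 1 ≤ n) (hco : IsCoprime p r)
    {ι : Type} [Fintype ι] [DecidableEq ι] (hι : Fintype.card ι = n) (t β : ι → ℂ)
    (H : ι → ℂ[X]) (hH : ∀ i, (X - C (t i)) * H i = p + C (β i) * r)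
    (ht : ∀ i j, i ≠ j → t i ≠ t j) (g : ι → ℂ) (hg : ∑ i, g i • H i = 0) : ∀ i, g i = 0 := by
  obtain ⟨Pi, hPi⟩ : ∃ Pi : ι → ℂ[X], Pi = fun i => ∏ x ∈ Finset.univ.erase i, (X - C (t x)) :=
    ⟨_, rfl⟩
  have h1 : p * (∑ i, C (g i) * Pi i) + r * (∑ i, C (g i * β i) * Pi i) = 0 := by
    have h2 : (∏ x, (X - C (t x))) * ∑ i, g i • H i = 0 := by rw [hg, mul_zero]
    rw [Finset.mul_sum] at h2
    rw [Finset.mul_sum, Finset.mul_sum, ← Finset.sum_add_distrib, ← h2]
    refine Finset.sum_congr rfl (fun i _ => ?_)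
    have h3 : (∏ x, (X - C (t x))) = Pi i * (X - C (t i)) := by
      rw [hPi]
      exact (Finset.prod_erase_mul _ _ (Finset.mem_univ i)).symm
    rw [h3, smul_eq_C_mul, C_mul]
    linear_combination (-(C (g i) * Pi i)) * hH i
  have h2 : r ∣ ∑ i, C (g i) * Pi i := by
    have h3 : r ∣ p * (∑ i, C (g i) * Pi i) := by
      refine ⟨-(∑ i, C (g i * β i) * Pi i), ?_⟩
      linear_combination h1
    exact hco.symm.dvd_of_dvd_mul_left h3
  have hdeg : (∑ i, C (g i) * Pi i).natDegree < n := by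
    have h3 : (∑ i, C (g i) * Pi i).natDegree ≤ n - 1 := by
      refine natDegree_sum_le_of_forall_le _ _ (fun i _ => ?_)
      refine (natDegree_C_mul_le _ _).trans ?_
      rw [hPi]
      simp only
      rw [natDegree_prod_of_monic _ _ (fun x _ => monic_X_sub_C (t x))]
      simp only [natDegree_X_sub_C, Finset.sum_const, smul_eq_mul, mul_one]
      rw [Finset.card_erase_of_mem (Finset.mem_univ i), Finset.card_univ, hι]
    omega
  have hN : ∑ i, C (g i) * Pi i = 0 := by
    by_contra hne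
    have := natDegree_le_of_dvd h2 hne
    omega
  intro i
  have h4 := congrArg (eval (t i)) hN
  rw [eval_finsetSum, eval_zero, Finset.sum_eq_single i] at h4
  · rw [eval_mul, eval_C, hPi] at h4
    simp only at h4
    rw [eval_prod] at h4
    rcases mul_eq_zero.1 h4 with h5 | h5
    · exact h5
    · exfalso
      rw [Finset.prod_eq_zero_iff] at h5
      obtain ⟨x, hx, h6⟩ := h5
      rw [eval_sub, eval_X, eval_C, sub_eq_zero] at h6
      exact ht i x (Finset.ne_of_mem_erase hx).symm h6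
  · intro j _ hj
    rw [eval_mul, hPi]
    simp only
    rw [eval_prod]
    have h5 : ∏ x ∈ Finset.univ.erase j, eval (t i) (X - C (t x)) = 0 := by
      refine Finset.prod_eq_zero (Finset.mem_erase.2 ⟨hj.symm, Finset.mem_univ i⟩) ?_
      rw [eval_sub, eval_X, eval_C, sub_self]
    rw [h5, mul_zero]
  · intro h
    exact absurd (Finset.mem_univ i) h

theorem span_all (n : ℕ) (hn : 1 ≤ n) (P R : ℤ[X]) (hP : P.natDegree ≤ n)
    (hR : R.natDegree = n) (hsq : Squarefree (R.map (Int.castRingHom ℂ)))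
    (hco : IsCoprime (P.map (Int.castRingHom ℂ)) (R.map (Int.castRingHom ℂ)))
    (B : Finset ℤ) (hB : n ≤ B.card) (D : ℤ → ℤ[X])
    (hD : ∀ b ∈ B, (P + C b * R).natDegree = n ∧ D b ∣ P + C b * R ∧ (D b).natDegree < n)
    (φ : ℂ[X] →ₗ[ℂ] ℂ)
    (hφ : ∀ b ∈ B, ∀ i : ℕ, i + (D b).natDegree ≤ n →
      φ ((D b * X ^ i).map (Int.castRingHom ℂ)) = 0) :
    ∀ G : ℂ[X], G.natDegree ≤ n → φ G = 0 := by
  classical
  have hinj : Function.Injective (Int.castRingHom ℂ) := Int.cast_injective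
  obtain ⟨p, hp⟩ : ∃ p : ℂ[X], p = P.map (Int.castRingHom ℂ) := ⟨_, rfl⟩
  obtain ⟨r, hr⟩ : ∃ r : ℂ[X], r = R.map (Int.castRingHom ℂ) := ⟨_, rfl⟩
  have hrd : r.natDegree = n := by
    rw [hr, natDegree_map_eq_of_injective hinj, hR]
  rw [← hp, ← hr] at hco
  have hone : ∀ b : ℤ, ∃ (t : ℂ) (H : ℂ[X]), b ∈ B → (X - C t) * H = p + C (b : ℂ) * r ∧
      H.natDegree < n ∧ φ H = 0 ∧ φ (p + C (b : ℂ) * r) = 0 := by
    intro b
    by_cases hb : b ∈ B
    · obtain ⟨h1, h2, h3⟩ := hD b hb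
      obtain ⟨t, H, h4⟩ := A5_one hn φ h1 h2 h3 (hφ b hb)
      rw [← hp, ← hr] at h4
      exact ⟨t, H, fun _ => h4⟩
    · exact ⟨0, 0, fun h => absurd h hb⟩
  choose t H hH using hone
  have ht : ∀ b ∈ B, ∀ b' ∈ B, b ≠ b' → t b ≠ t b' := by
    intro b hb b' hb' hne heq
    have e1 := congrArg (eval (t b)) (hH b hb).1
    have e2 := congrArg (eval (t b)) (hH b' hb').1
    rw [← heq] at e2
    simp only [eval_mul, eval_sub, eval_X, eval_C, sub_self, zero_mul, eval_add] at e1 e2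
    have e3 : ((b : ℂ) - b') * eval (t b) r = 0 := by linear_combination e2 - e1
    have e4 : ((b : ℂ) - b') ≠ 0 := by
      rw [sub_ne_zero]
      exact_mod_cast hne
    have e5 : eval (t b) r = 0 := (mul_eq_zero.1 e3).resolve_left e4
    rw [e5, mul_zero, add_zero] at e1
    obtain ⟨u, v, huv⟩ := hco
    have e6 := congrArg (eval (t b)) huv
    simp only [eval_add, eval_mul, eval_one, e5, ← e1, mul_zero, add_zero] at e6
    exact zero_ne_one e6
  obtain ⟨B', hB', hBc⟩ := Finset.exists_subset_card_eq hB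
  -- the polynomials of degree less than `n`
  have hlt : ∀ G : ℂ[X], G ∈ degreeLT ℂ n → φ G = 0 := by
    let v : {x // x ∈ B'} → degreeLT ℂ n := fun b => ⟨H b.1, by
      rw [mem_degreeLT]
      by_cases h0 : H b.1 = 0
      · rw [h0, degree_zero]
        exact WithBot.bot_lt_coe n
      · rw [degree_eq_natDegree h0]
        exact_mod_cast (hH b.1 (hB' b.2)).2.1⟩
    have hli : LinearIndependent ℂ v := by
      rw [Fintype.linearIndependent_iff]
      intro g hg
      have hg' : ∑ i, g i • H i.1 = 0 := by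
        have h1 := congrArg Subtype.val hg
        rw [Submodule.coe_sum] at h1
        exact h1
      exact A5_ind hrd hn hco (by rw [Fintype.card_coe, hBc]) (fun b : {x // x ∈ B'} => t b.1)
        (fun b => ((b.1 : ℤ) : ℂ)) (fun b => H b.1) (fun b => (hH b.1 (hB' b.2)).1)
        (fun i j hij => ht i.1 (hB' i.2) j.1 (hB' j.2) (fun h => hij (Subtype.ext h))) g hg'
    have hfr : Module.finrank ℂ (degreeLT ℂ n) = n := by
      rw [(degreeLTEquiv ℂ n).finrank_eq, Module.finrank_fin_fun]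
    have hne : Nonempty {x // x ∈ B'} := by
      rw [← Fintype.card_pos_iff, Fintype.card_coe, hBc]
      omega
    have hspan := hli.span_eq_top_of_card_eq_finrank (by rw [Fintype.card_coe, hBc, hfr])
    have hz : φ.comp (degreeLT ℂ n).subtype = 0 := by
      refine LinearMap.ext_on hspan ?_
      rintro _ ⟨b, rfl⟩
      exact (hH b.1 (hB' b.2)).2.2.1
    intro G hG
    exact congrArg (fun f => f ⟨G, hG⟩) hz
  -- degree `n`
  intro G hG
  obtain ⟨b, hb⟩ : B.Nonempty := by
    rw [← Finset.card_pos]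
    omega
  obtain ⟨F, hF⟩ : ∃ F : ℂ[X], F = p + C (b : ℂ) * r := ⟨_, rfl⟩
  have hφF : φ F = 0 := by rw [hF]; exact (hH b hb).2.2.2
  have hFd : F.natDegree = n := by
    have h1 : F = (P + C b * R).map (Int.castRingHom ℂ) := by
      rw [hF, hp, hr, Polynomial.map_add, Polynomial.map_mul, map_C]
      rfl
    rw [h1, natDegree_map_eq_of_injective hinj]
    exact (hD b hb).1
  have hF0 : F ≠ 0 := by
    intro h0
    rw [h0, natDegree_zero] at hFd
    omega
  have hlc : F.coeff n ≠ 0 := by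
    rw [← hFd]
    exact leadingCoeff_ne_zero.2 hF0
  have hmem : G - (G.coeff n / F.coeff n) • F ∈ degreeLT ℂ n := by
    rw [mem_degreeLT, degree_lt_iff_coeff_zero]
    intro m hm
    rcases hm.lt_or_eq with h1 | h1
    · have e1 : F.coeff m = 0 := coeff_eq_zero_of_natDegree_lt (by rw [hFd]; exact h1)
      rw [coeff_sub, coeff_smul, e1, coeff_eq_zero_of_natDegree_lt (lt_of_le_of_lt hG h1),
        smul_zero, sub_zero]
    · rw [← h1, coeff_sub, coeff_smul, smul_eq_mul, div_mul_cancel₀ _ hlc, sub_self]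
  have h1 := hlt _ hmem
  rw [map_sub, map_smul, hφF, smul_zero, sub_zero] at h1
  exact h1

end Pool.Agent.Lib.H70W
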