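import Pool.Agent.Lib.H70W.Defs

/-! # Chunk A6: a nonzero determinant -/

open Polynomial Filter

namespace Pool.Agent.Lib.H70W

theorem A6_span (n : ℕ) {ι : Type} (G : ι → ℤ[X])
    (h : ∀ φ : ℂ[X] →ₗ[ℂ] ℂ, (∀ i, φ ((G i).map (Int.castRingHom ℂ)) = 0) →
      ∀ F : ℂ[X], F.natDegree ≤ n → φ F = 0) :
    Submodule.span ℂ (Set.range fun i => fun l : Fin (n + 1) => (((G i).coeff l : ℤ) : ℂ)) = ⊤ := by
  by_contra hne
  obtain ⟨f, hf, hle⟩ := Submodule.exists_le_ker_of_lt_top _ (lt_top_iff_ne_top.2 hne)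
  apply hf
  let T : ℂ[X] →ₗ[ℂ] (Fin (n + 1) → ℂ) := LinearMap.pi fun l => Polynomial.lcoeff ℂ (l : ℕ)
  have hT : ∀ F, T F = fun l : Fin (n + 1) => F.coeff l := by
    intro F
    rfl
  have h0 : ∀ i, (f.comp T) ((G i).map (Int.castRingHom ℂ)) = 0 := by
    intro i
    rw [LinearMap.comp_apply, hT]
    have h1 : (fun l : Fin (n + 1) => ((G i).map (Int.castRingHom ℂ)).coeff l) =
        fun l : Fin (n + 1) => (((G i).coeff l : ℤ) : ℂ) := by
      funext l
      rw [Polynomial.coeff_map]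
      rfl
    rw [h1]
    exact hle (Submodule.subset_span ⟨i, rfl⟩)
  have h2 := h (f.comp T) h0
  refine LinearMap.ext fun w => ?_
  rw [LinearMap.zero_apply]
  let F : ℂ[X] := ∑ l : Fin (n + 1), Polynomial.monomial (l : ℕ) (w l)
  have hFd : F.natDegree ≤ n := by
    apply Polynomial.natDegree_sum_le_of_forall_le
    intro l _
    refine (Polynomial.natDegree_monomial_le _).trans ?_
    have := l.2
    omega
  have hTF : T F = w := by
    rw [hT]
    funext l
    simp only [F, Polynomial.finsetSum_coeff, Polynomial.coeff_monomial]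
    rw [Finset.sum_eq_single l]
    · simp
    · intro b _ hb
      rw [if_neg]
      intro hbl
      exact hb (Fin.ext hbl)
    · intro hl
      exact absurd (Finset.mem_univ l) hl
  have h3 := h2 F hFd
  rw [LinearMap.comp_apply, hTF] at h3
  exact h3

theorem exists_det (n : ℕ) {ι : Type} (G : ι → ℤ[X]) (hG : ∀ i, (G i).natDegree ≤ n)
    (h : ∀ φ : ℂ[X] →ₗ[ℂ] ℂ, (∀ i, φ ((G i).map (Int.castRingHom ℂ)) = 0) →
      ∀ F : ℂ[X], F.natDegree ≤ n → φ F = 0) :
    ∃ j : Fin (n + 1) → ι,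
      (Matrix.of fun k l : Fin (n + 1) => (G (j k)).coeff l).det ≠ 0 := by
  classical
  have hspan := A6_span n G h
  set v : ι → (Fin (n + 1) → ℂ) := fun i => fun l : Fin (n + 1) => (((G i).coeff l : ℤ) : ℂ) with hv
  obtain ⟨b, hb, hbs, hli⟩ := exists_linearIndependent ℂ (Set.range v)
  rw [hspan] at hbs
  have hbs' : ⊤ ≤ Submodule.span ℂ (Set.range ((↑) : b → (Fin (n + 1) → ℂ))) := by
    rw [Subtype.range_coe, hbs]
  let B := Module.Basis.mk hli hbs'
  have : Fintype b := FiniteDimensional.fintypeBasisIndex B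
  have hcard : Fintype.card b = n + 1 := by
    rw [← Module.finrank_eq_card_basis B, Module.finrank_fintype_fun_eq_card, Fintype.card_fin]
  let e : Fin (n + 1) ≃ b := (Fintype.equivFinOfCardEq hcard).symm
  have hex : ∀ k, ∃ i, v i = (e k : Fin (n + 1) → ℂ) := fun k => hb (e k).2
  choose j hj using hex
  refine ⟨j, ?_⟩
  intro hdet
  have h1 : LinearIndependent ℂ (fun k => v (j k)) := by
    have h2 := hli.comp e e.injective
    have h3 : (fun k => v (j k)) = ((↑) : b → (Fin (n + 1) → ℂ)) ∘ e := by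
      funext k
      exact hj k
    rw [h3]
    exact h2
  have h4 : IsUnit ((Matrix.of fun k l : Fin (n + 1) => (G (j k)).coeff l).map
      (Int.castRingHom ℂ)) := by
    rw [← Matrix.linearIndependent_rows_iff_isUnit]
    exact h1
  rw [Matrix.isUnit_iff_isUnit_det, ← RingHom.mapMatrix_apply, ← RingHom.map_det, hdet,
    map_zero] at h4
  exact not_isUnit_zero h4

end Pool.Agent.Lib.H70W
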