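import Pool.Agent.Lib.H70W.Defs

/-! # Chunk A7: a small prime not dividing D (short)

Proof. Let `k = ⌊ε log Y / log 2⌋` (so `2^k ≤ Y^ε`). By Bertrand (Mathlib
`Nat.exists_prime_lt_and_le_two_mul`) there is for every `j < k` a prime `p_j` in
`(2^j, 2^(j+1)]`; these are `k` distinct primes at most `2^k ≤ Y^ε`. If all of them divide `D`, so
does their product, which is at least `2^(0+1+...+(k-1)) = 2^(k(k-1)/2)`, larger than
`Y^A ≤ 2^(A (k+1)/ε)` for large `Y` (quadratic against linear in `k`): contradiction with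
`D ≠ 0`. (Any other proof is fine.) -/

open Polynomial Filter

namespace Pool.Agent.Lib.H70W

theorem A7_set (k : ℕ) : ∃ T : Finset ℕ, (∀ p ∈ T, p.Prime ∧ p ≤ 2 ^ k) ∧
    2 ^ (k * k) ≤ (∏ p ∈ T, p) ^ 2 * 2 ^ k := by
  induction k with
  | zero => exact ⟨∅, by simp, by simp⟩
  | succ k ih =>
    obtain ⟨T, hT1, hT2⟩ := ih
    obtain ⟨p, hp, hp1, hp2⟩ := Nat.exists_prime_lt_and_le_two_mul (2 ^ k) (by positivity)
    have hpT : p ∉ T := fun h => by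
      have := (hT1 p h).2
      omega
    refine ⟨insert p T, ?_, ?_⟩
    · intro q hq
      rcases Finset.mem_insert.1 hq with rfl | hq
      · exact ⟨hp, by rw [pow_succ]; omega⟩
      · exact ⟨(hT1 q hq).1, (hT1 q hq).2.trans (Nat.pow_le_pow_right (by norm_num) (by omega))⟩
    · rw [Finset.prod_insert hpT]
      have h1 : 2 ^ ((k + 1) * (k + 1)) = 2 ^ (k * k) * (2 ^ k) ^ 2 * 2 := by
        rw [← pow_mul, ← pow_add, ← pow_succ]
        congr 1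
        ring
      have h2 : (p * ∏ x ∈ T, x) ^ 2 * 2 ^ (k + 1) = ((∏ x ∈ T, x) ^ 2 * 2 ^ k) * p ^ 2 * 2 := by
        rw [pow_succ 2 k]
        ring
      rw [h1, h2]
      refine Nat.mul_le_mul_right 2 (Nat.mul_le_mul hT2 ?_)
      exact Nat.pow_le_pow_left hp1.le 2

theorem exists_prime (A ε : ℝ) (hε : 0 < ε) :
    ∀ᶠ Y : ℝ in atTop, ∀ D : ℤ, D ≠ 0 → |(D : ℝ)| ≤ Y ^ A →
      ∃ p : ℕ, p.Prime ∧ (p : ℝ) ≤ Y ^ ε ∧ ¬ (p : ℤ) ∣ D := by
  obtain ⟨b, hb⟩ := exists_nat_ge (|A| / ε)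
  have hlim := tendsto_rpow_atTop hε
  filter_upwards [hlim.eventually_ge_atTop ((2 : ℝ) ^ (4 * b + 4)), eventually_ge_atTop (1 : ℝ)]
    with Y hY hY1 D hD0 hD
  by_contra hcon
  push Not at hcon
  have hY0 : 0 < Y := by linarith
  obtain ⟨x, hx⟩ : ∃ x : ℝ, x = Y ^ ε := ⟨_, rfl⟩
  rw [← hx] at hY hcon
  have hx1 : 1 ≤ x := by
    refine le_trans ?_ hY
    exact one_le_pow₀ (by norm_num)
  have hx0 : 0 ≤ x := by linarith
  obtain ⟨m, hm⟩ : ∃ m : ℕ, m = ⌊x⌋₊ := ⟨_, rfl⟩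
  obtain ⟨k, hk⟩ : ∃ k : ℕ, k = Nat.log 2 m := ⟨_, rfl⟩
  have hm1 : 2 ^ (4 * b + 4) ≤ m := by
    rw [hm]
    refine Nat.le_floor ?_
    push_cast
    exact hY
  have hm0 : m ≠ 0 := by
    have : 0 < 2 ^ (4 * b + 4) := by positivity
    omega
  have hk1 : 2 ^ k ≤ m := by rw [hk]; exact Nat.pow_log_le_self 2 hm0
  have hk2 : m < 2 ^ (k + 1) := by rw [hk]; exact Nat.lt_pow_succ_log_self (by norm_num) m
  have hk3 : 4 * b + 4 ≤ k := by
    by_contra hc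
    push Not at hc
    have h1 : 2 ^ (k + 1) ≤ 2 ^ (4 * b + 4) := Nat.pow_le_pow_right (by norm_num) (by omega)
    omega
  have hmx : (m : ℝ) ≤ x := by rw [hm]; exact Nat.floor_le hx0
  have hxk : x < 2 ^ (k + 1) := by
    have h1 : x < m + 1 := by rw [hm]; exact Nat.lt_floor_add_one x
    have h2 : (m : ℝ) + 1 ≤ 2 ^ (k + 1) := by exact_mod_cast hk2
    linarith
  obtain ⟨T, hT1, hT2⟩ := A7_set k
  have hdvd : (∏ p ∈ T, p) ∣ D.natAbs := by
    refine Finset.prod_primes_dvd _ (fun p hp => (hT1 p hp).1.prime) (fun p hp => ?_)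
    have h1 : (p : ℝ) ≤ x := by
      refine le_trans ?_ hmx
      exact_mod_cast (hT1 p hp).2.trans hk1
    exact Int.natCast_dvd.1 (hcon p (hT1 p hp).1 h1)
  have hle : (∏ p ∈ T, p) ≤ D.natAbs := Nat.le_of_dvd (Int.natAbs_pos.2 hD0) hdvd
  have hDb : (D.natAbs : ℝ) ≤ 2 ^ ((k + 1) * b) := by
    have h1 : (D.natAbs : ℝ) = |(D : ℝ)| := by
      rw [Nat.cast_natAbs, Int.cast_abs]
    rw [h1]
    refine hD.trans ?_
    have h2 : Y ^ A ≤ Y ^ |A| := Real.rpow_le_rpow_of_exponent_le hY1 (le_abs_self A)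
    have h3 : Y ^ |A| = x ^ (|A| / ε) := by
      rw [hx, ← Real.rpow_mul hY0.le]
      congr 1
      field_simp
    have h4 : x ^ (|A| / ε) ≤ x ^ (b : ℝ) := Real.rpow_le_rpow_of_exponent_le hx1 hb
    rw [Real.rpow_natCast] at h4
    have h5 : x ^ b ≤ (2 ^ (k + 1)) ^ b := pow_le_pow_left₀ hx0 hxk.le b
    rw [← pow_mul] at h5
    linarith
  have hDb' : D.natAbs ≤ 2 ^ ((k + 1) * b) := by exact_mod_cast hDb
  have h1 : 2 ^ (k * k) ≤ 2 ^ ((k + 1) * b * 2 + k) := by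
    refine hT2.trans ?_
    rw [pow_add, pow_mul 2 ((k + 1) * b) 2]
    exact Nat.mul_le_mul_right _ (Nat.pow_le_pow_left (hle.trans hDb') 2)
  have h2 := (Nat.pow_le_pow_iff_right (by norm_num : 1 < 2)).1 h1
  nlinarith

end Pool.Agent.Lib.H70W
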