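import Pool.Agent.Lib.H70W.Defs

/-! # Chunk A8: an Eisenstein combination (medium)

Proof. Let `M` be the integer matrix `M k l = (G k).coeff l`, `d = det M`, coprime to `p^2`. Let
`v : Fin (n+1) → ℤ` be the coefficient vector of `X^n + p` (`v l = 1` for `l = n`, `v 0 = p`, else
`0`; note `n ≥ 1`). Choose an integer `e` with `e d ≡ 1 mod p^2`; `c' = e • (v ᵥ* adjugate M)`
satisfies `c' ᵥ* M ≡ v mod p^2`; reduce `c'` modulo `p^2` to get `0 ≤ c k < p^2`. Then
`F0 = Σ C (c k) * G k` has degree at most `n`, `F0.coeff n ≡ 1`, `F0.coeff 0 ≡ p`,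
`F0.coeff l ≡ 0 mod p^2` for `0 < l < n`. Take `a = content F0`, `F = primPart F0`: `p ∤ a`
because `a ∣ F0.coeff n`; so `p ∤ F.coeff n`, `p ∣ F.coeff l` for `l < n`, `p^2 ∤ F.coeff 0`, and
`F` is primitive of degree `n`: Eisenstein (`Polynomial.irreducible_of_eisenstein_criterion`). -/

open Polynomial Filter

namespace Pool.Agent.Lib.H70W

theorem eisenstein_comb (n : ℕ) (hn : 1 ≤ n) (G : Fin (n + 1) → ℤ[X])
    (hG : ∀ i, (G i).natDegree ≤ n) (p : ℕ) (hp : p.Prime)
    (hdet : ¬ (p : ℤ) ∣ (Matrix.of fun k l : Fin (n + 1) => (G k).coeff l).det) :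
    ∃ (c : Fin (n + 1) → ℤ) (a : ℤ) (F : ℤ[X]), (∀ i, 0 ≤ c i ∧ c i < (p : ℤ) ^ 2) ∧
      Irreducible F ∧ F.natDegree = n ∧ a ≠ 0 ∧ C a * F = ∑ i, C (c i) * G i := by
  classical
  set M : Matrix (Fin (n + 1)) (Fin (n + 1)) ℤ :=
    Matrix.of fun k l : Fin (n + 1) => (G k).coeff l with hM
  have hpp : Prime (p : ℤ) := Nat.prime_iff_prime_int.mp hp
  have hp0 : (0 : ℤ) < p := by exact_mod_cast hp.pos
  have hp1 : (1 : ℤ) < p := by exact_mod_cast hp.one_lt
  have hcop : IsCoprime ((p : ℤ) ^ 2) M.det :=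
    ((hpp.irreducible.coprime_iff_not_dvd).2 hdet).pow_left
  obtain ⟨u, b, hub⟩ := hcop
  set v : Fin (n + 1) → ℤ := fun l => if l.1 = n then 1 else if l.1 = 0 then (p : ℤ) else 0
    with hv
  set c0 : Fin (n + 1) → ℤ := fun k => b * Matrix.vecMul v M.adjugate k with hc0
  set c : Fin (n + 1) → ℤ := fun k => c0 k % (p : ℤ) ^ 2 with hc
  have hp2 : (0 : ℤ) < (p : ℤ) ^ 2 := by positivity
  have hcb : ∀ i, 0 ≤ c i ∧ c i < (p : ℤ) ^ 2 := fun i =>
    ⟨Int.emod_nonneg _ hp2.ne', Int.emod_lt_of_pos _ hp2⟩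
  set F0 : ℤ[X] := ∑ i, C (c i) * G i with hF0
  -- the coefficients
  have hco : ∀ l : Fin (n + 1), F0.coeff l.1 ≡ v l [ZMOD (p : ℤ) ^ 2] := by
    intro l
    have h1 : F0.coeff l.1 = ∑ k, c k * M k l := by
      rw [hF0, finsetSum_coeff]
      refine Finset.sum_congr rfl (fun k _ => ?_)
      rw [coeff_C_mul]
      rfl
    have h2 : ∑ k, c k * M k l ≡ ∑ k, c0 k * M k l [ZMOD (p : ℤ) ^ 2] := by
      refine Int.ModEq.sum (fun k _ => ?_)
      exact (Int.mod_modEq _ _).mul_right _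
    have h3 : ∑ k, c0 k * M k l = b * (M.det * v l) := by
      have h4 : Matrix.vecMul (Matrix.vecMul v M.adjugate) M l = M.det * v l := by
        rw [Matrix.vecMul_vecMul, Matrix.adjugate_mul, Matrix.vecMul_smul, Matrix.vecMul_one]
        rfl
      rw [← h4]
      change ∑ k, (b * Matrix.vecMul v M.adjugate k) * M k l =
        b * ∑ k, Matrix.vecMul v M.adjugate k * M k l
      rw [Finset.mul_sum]
      exact Finset.sum_congr rfl (fun k _ => mul_assoc _ _ _)
    have h5 : b * (M.det * v l) ≡ v l [ZMOD (p : ℤ) ^ 2] := by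
      have h6 : v l - b * (M.det * v l) = (p : ℤ) ^ 2 * (u * v l) := by
        linear_combination (-(v l)) * hub
      exact (Int.modEq_iff_dvd.2 ⟨u * v l, h6⟩)
    rw [h1]
    exact h2.trans (h3 ▸ h5)
  have hcn : F0.coeff n ≡ 1 [ZMOD (p : ℤ) ^ 2] := by
    have := hco ⟨n, by omega⟩
    simpa [hv] using this
  have hc00 : F0.coeff 0 ≡ p [ZMOD (p : ℤ) ^ 2] := by
    have := hco ⟨0, by omega⟩
    have h0 : v ⟨0, by omega⟩ = p := by
      simp only [hv]
      rw [if_neg (by omega), if_true]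
    rw [h0] at this
    exact this
  have hcl : ∀ l, l < n → (p : ℤ) ∣ F0.coeff l := by
    intro l hl
    have h1 := (hco ⟨l, by omega⟩)
    have h2 : (p : ℤ) ∣ v ⟨l, by omega⟩ := by
      simp only [hv]
      rw [if_neg (by omega)]
      split_ifs
      · exact dvd_refl _
      · exact dvd_zero _
    have h3 : (p : ℤ) ∣ v ⟨l, by omega⟩ - F0.coeff l :=
      (Dvd.intro_left ((p : ℤ)) (by ring)).trans (Int.modEq_iff_dvd.1 h1)
    exact (dvd_sub_right h2).1 h3
  have hnd : ¬ (p : ℤ) ∣ F0.coeff n := by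
    intro h
    have h3 : (p : ℤ) ∣ 1 - F0.coeff n :=
      (Dvd.intro_left ((p : ℤ)) (by ring)).trans (Int.modEq_iff_dvd.1 hcn)
    have h4 : (p : ℤ) ∣ 1 := by
      have := dvd_add h3 h
      simpa using this
    exact hpp.not_isUnit (isUnit_of_dvd_one h4)
  have hdeg : F0.natDegree ≤ n := by
    rw [hF0]
    refine natDegree_sum_le_of_forall_le _ _ (fun k _ => ?_)
    exact (natDegree_C_mul_le _ _).trans (hG k)
  have hn0 : F0.coeff n ≠ 0 := fun h => hnd (h ▸ dvd_zero _)
  have hdeg' : F0.natDegree = n := le_antisymm hdeg (le_natDegree_of_ne_zero hn0)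
  have hF0ne : F0 ≠ 0 := by
    intro h
    rw [h] at hn0
    simp at hn0
  set a := F0.content with ha
  set F := F0.primPart with hF
  have haF : C a * F = F0 := (F0.eq_C_content_mul_primPart).symm
  have ha0 : a ≠ 0 := content_eq_zero_iff.not.2 hF0ne
  have hcoef : ∀ l, a * F.coeff l = F0.coeff l := by
    intro l
    rw [← coeff_C_mul, haF]
  have hpa : ¬ (p : ℤ) ∣ a := fun h => hnd ((h.trans (Dvd.intro _ (hcoef n))))
  have hFdeg : F.natDegree = n := by
    rw [hF, natDegree_primPart, hdeg']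
  have hFl : ∀ l, l < n → (p : ℤ) ∣ F.coeff l := by
    intro l hl
    have h1 := hcl l hl
    rw [← hcoef l] at h1
    exact (hpp.dvd_or_dvd h1).resolve_left hpa
  have hirr : Irreducible F := by
    have hFpos : 0 < F.natDegree := by omega
    refine irreducible_of_eisenstein_criterion (P := Ideal.span {(p : ℤ)}) ?_ ?_ ?_ ?_ ?_ ?_
    · exact (Ideal.span_singleton_prime hpp.ne_zero).2 hpp
    · rw [Ideal.mem_span_singleton]
      intro h
      rw [leadingCoeff, hFdeg] at h
      exact hnd ((h.mul_left a).trans (by rw [hcoef]))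
    · intro l hl
      rw [Ideal.mem_span_singleton]
      refine hFl l ?_
      have := natDegree_pos_iff_degree_pos.1 hFpos
      rw [degree_eq_natDegree (primPart_ne_zero F0), hFdeg] at hl
      exact_mod_cast hl
    · exact natDegree_pos_iff_degree_pos.1 hFpos
    · rw [Ideal.span_singleton_pow, Ideal.mem_span_singleton]
      intro h
      have h1 : (p : ℤ) ^ 2 ∣ F0.coeff 0 := by
        rw [← hcoef 0]
        exact h.mul_left a
      have h2 : (p : ℤ) ^ 2 ∣ p := by
        have h3 := Int.modEq_iff_dvd.1 hc00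
        have := dvd_add h3 h1
        simpa using this
      have h4 := Int.le_of_dvd hp0 h2
      nlinarith
    · exact F0.isPrimitive_primPart
  exact ⟨c, a, F, hcb, hirr, hFdeg, ha0, haF⟩

end Pool.Agent.Lib.H70W
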