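import Pool.Agent.Lib.H70W.A1
import Pool.Agent.Lib.H70W.A6
import Pool.Agent.Lib.H70W.A7
import Pool.Agent.Lib.H70W.A8

/-! # Chunk A9: from n+1 independent good polynomials to an irreducible one of degree n (medium)

Proof. `|det| ≤ (n+1)! (K Y)^(n+1) ≤ Y^(n+2)` for large `Y` (Leibniz formula:
`Matrix.det_apply`, every entry is at most the height). `exists_prime` with `A = n+2` and
`ε` gives `p ≤ Y^ε` not dividing the determinant, `eisenstein_comb` gives `c`, `a`, `F`. As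
`a ≠ 0` is an integer, `|F.coeff i| ≤ |(C a * F).coeff i| ≤ Σ |c k| height (G k)
≤ (n+1) p^2 K Y ≤ (n+1) K Y^(1+2ε) ≤ Y^(1+3ε)`, and
`|F(ζ)| ≤ |a F(ζ)| ≤ (n+1) p^2 K Y^(-w) ≤ Y^(-w+3ε)` for large `Y`. -/

open Polynomial Filter

namespace Pool.Agent.Lib.H70W

theorem good_irreducible (n : ℕ) (hn : 1 ≤ n) (ζ : ℝ) (K w ε : ℝ) (hε : 0 < ε) :
    ∀ᶠ Y : ℝ in atTop, ∀ G : Fin (n + 1) → ℤ[X], (∀ i, (G i).natDegree ≤ n) →
      (∀ i, (height (G i) : ℝ) ≤ K * Y) → (∀ i, |aeval ζ (G i)| ≤ K * Y ^ (-w)) →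
      (Matrix.of fun k l : Fin (n + 1) => (G k).coeff l).det ≠ 0 →
      ∃ F : ℤ[X], Irreducible F ∧ F.natDegree = n ∧ (height F : ℝ) ≤ Y ^ (1 + 3 * ε) ∧
        |aeval ζ F| ≤ Y ^ (-w + 3 * ε) := by
  set K' : ℝ := max K 1 with hK'
  have hK0 : 0 < K' := lt_of_lt_of_le one_pos (le_max_right _ _)
  have h1 := exists_prime ((n : ℝ) + 2) ε hε
  have h2 : ∀ᶠ Y : ℝ in atTop, ((n + 1).factorial : ℝ) * K' ^ (n + 1) ≤ Y :=
    eventually_ge_atTop _
  have h3 : ∀ᶠ Y : ℝ in atTop, ((n : ℝ) + 1) * K' ≤ Y ^ ε :=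
    (tendsto_rpow_atTop hε).eventually_ge_atTop _
  filter_upwards [h1, h2, h3, eventually_ge_atTop 1] with Y hY1 hY2 hY3 hY0 G hG hGh hGz hdet
  have hYpos : 0 < Y := lt_of_lt_of_le one_pos hY0
  have hGh' : ∀ i l, |((G i).coeff l : ℝ)| ≤ K' * Y := fun i l =>
    (abs_coeff_le_height _ _).trans ((hGh i).trans
      (mul_le_mul_of_nonneg_right (le_max_left _ _) hYpos.le))
  have hGz' : ∀ i, |aeval ζ (G i)| ≤ K' * Y ^ (-w) := fun i =>
    (hGz i).trans (mul_le_mul_of_nonneg_right (le_max_left _ _) (Real.rpow_nonneg hYpos.le _))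
  -- the determinant
  have hdetle : |(((Matrix.of fun k l : Fin (n + 1) => (G k).coeff l).det : ℤ) : ℝ)| ≤
      Y ^ ((n : ℝ) + 2) := by
    have h4 : (((Matrix.of fun k l : Fin (n + 1) => (G k).coeff l).det : ℤ) : ℝ) =
        (Matrix.of fun k l : Fin (n + 1) => (((G k).coeff l : ℤ) : ℝ)).det := by
      rw [Int.cast_det]
      rfl
    rw [h4]
    have h5 := Matrix.det_le (A := Matrix.of fun k l : Fin (n + 1) => (((G k).coeff l : ℤ) : ℝ))
      (abv := AbsoluteValue.abs) (x := K' * Y) (fun i j => hGh' i j)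
    rw [Fintype.card_fin, nsmul_eq_mul, mul_pow] at h5
    refine (h5).trans ?_
    have h6 : Y ^ ((n : ℝ) + 2) = Y * Y ^ (n + 1) := by
      have : (n : ℝ) + 2 = ((n + 2 : ℕ) : ℝ) := by push_cast; ring
      rw [this, Real.rpow_natCast]
      ring
    rw [h6, ← mul_assoc]
    exact mul_le_mul_of_nonneg_right hY2 (by positivity)
  obtain ⟨p, hp, hpY, hpd⟩ := hY1 _ hdet hdetle
  obtain ⟨c, a, F, hc, hF, hFd, ha, haF⟩ := eisenstein_comb n hn G hG p hp hpd
  have hp2 : ((p : ℝ)) ^ 2 ≤ Y ^ (2 * ε) := by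
    have h4 : (0 : ℝ) ≤ p := Nat.cast_nonneg _
    calc (p : ℝ) ^ 2 ≤ (Y ^ ε) ^ 2 := pow_le_pow_left₀ h4 hpY 2
      _ = Y ^ (2 * ε) := by
        rw [← Real.rpow_natCast, ← Real.rpow_mul hYpos.le]
        congr 1
        push_cast
        ring
  have hcle : ∀ i, |((c i : ℤ) : ℝ)| ≤ Y ^ (2 * ε) := by
    intro i
    have h4 : (0 : ℝ) ≤ c i := by exact_mod_cast (hc i).1
    have h5 : ((c i : ℤ) : ℝ) ≤ (p : ℝ) ^ 2 := by exact_mod_cast (hc i).2.le
    rw [abs_of_nonneg h4]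
    exact h5.trans hp2
  have ha1 : (1 : ℝ) ≤ |(a : ℝ)| := by
    have : (1 : ℤ) ≤ |a| := Int.one_le_abs ha
    exact_mod_cast this
  have hsplit : Y ^ (3 * ε) = Y ^ ε * Y ^ (2 * ε) := by
    rw [← Real.rpow_add hYpos]
    congr 1
    ring
  have h2e : 0 ≤ Y ^ (2 * ε) := Real.rpow_nonneg hYpos.le _
  refine ⟨F, hF, hFd, ?_, ?_⟩
  · refine height_le_of (Real.rpow_nonneg hYpos.le _) (fun l => ?_)
    have h4 : (a : ℝ) * (F.coeff l : ℝ) = ∑ i, (c i : ℝ) * ((G i).coeff l : ℝ) := by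
      have h5 := congrArg (fun q : ℤ[X] => q.coeff l) haF
      simp only [coeff_C_mul, finsetSum_coeff] at h5
      exact_mod_cast h5
    calc |(F.coeff l : ℝ)| ≤ |(a : ℝ)| * |(F.coeff l : ℝ)| := by
          have := abs_nonneg (F.coeff l : ℝ)
          nlinarith
      _ = |∑ i, (c i : ℝ) * ((G i).coeff l : ℝ)| := by rw [← abs_mul, h4]
      _ ≤ ∑ i, |(c i : ℝ) * ((G i).coeff l : ℝ)| := Finset.abs_sum_le_sum_abs _ _
      _ ≤ ∑ i : Fin (n + 1), Y ^ (2 * ε) * (K' * Y) := by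
          refine Finset.sum_le_sum (fun i _ => ?_)
          rw [abs_mul]
          exact mul_le_mul (hcle i) (hGh' i l) (abs_nonneg _) h2e
      _ = (((n : ℝ) + 1) * K') * Y ^ (2 * ε) * Y := by
          rw [Finset.sum_const, Finset.card_univ, Fintype.card_fin, nsmul_eq_mul]
          push_cast
          ring
      _ ≤ Y ^ ε * Y ^ (2 * ε) * Y := by gcongr
      _ = Y ^ (1 + 3 * ε) := by
          rw [← hsplit, Real.rpow_add hYpos, Real.rpow_one, mul_comm]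
  · have h4 : (a : ℝ) * aeval ζ F = ∑ i, (c i : ℝ) * aeval ζ (G i) := by
      have h5 := congrArg (fun q : ℤ[X] => aeval ζ q) haF
      simp only [map_mul, map_sum, aeval_C] at h5
      simpa using h5
    calc |aeval ζ F| ≤ |(a : ℝ)| * |aeval ζ F| := by
          have := abs_nonneg (aeval ζ F)
          nlinarith
      _ = |∑ i, (c i : ℝ) * aeval ζ (G i)| := by rw [← abs_mul, h4]
      _ ≤ ∑ i, |(c i : ℝ) * aeval ζ (G i)| := Finset.abs_sum_le_sum_abs _ _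
      _ ≤ ∑ i : Fin (n + 1), Y ^ (2 * ε) * (K' * Y ^ (-w)) := by
          refine Finset.sum_le_sum (fun i _ => ?_)
          rw [abs_mul]
          exact mul_le_mul (hcle i) (hGz' i) (abs_nonneg _) h2e
      _ = (((n : ℝ) + 1) * K') * Y ^ (2 * ε) * Y ^ (-w) := by
          rw [Finset.sum_const, Finset.card_univ, Fintype.card_fin, nsmul_eq_mul]
          push_cast
          ring
      _ ≤ Y ^ ε * Y ^ (2 * ε) * Y ^ (-w) := by
          have := Real.rpow_nonneg hYpos.le (-w)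
          gcongr
      _ = Y ^ (-w + 3 * ε) := by
          rw [← hsplit, Real.rpow_add hYpos, mul_comm]

end Pool.Agent.Lib.H70W
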