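import Pool.Agent.Lib.H70W.A3
import Pool.Agent.Lib.H70W.A4
import Pool.Agent.Lib.H70W.A5
import Pool.Agent.Lib.H70W.A9
import Pool.Agent.Lib.H70W.A10

/-! # Assembly of H70W -/

open Polynomial Filter

namespace Pool.Agent.Lib.H70W

/-- Pigeonhole for windows. -/
theorem windows (n : ℕ) (M δ : ℝ) (hM : 1 < M) (hδ : 0 < δ) (B : Finset ℤ) (r : ℤ → ℝ)
    (hr : ∀ b ∈ B, 1 ≤ r b ∧ r b ≤ M ^ (2 : ℝ)) (hB : (⌊2 / δ⌋₊ + 1) * n ≤ B.card) :
    ∃ (k : ℕ) (B' : Finset ℤ), B' ⊆ B ∧ n ≤ B'.card ∧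
      ∀ b ∈ B', M ^ ((k : ℝ) * δ) ≤ r b ∧ r b ≤ M ^ (((k : ℝ) + 1) * δ) := by
  classical
  have hlM : 0 < Real.log M := Real.log_pos hM
  have hdl : 0 < δ * Real.log M := mul_pos hδ hlM
  set f : ℤ → ℕ := fun b => ⌊Real.log (r b) / (δ * Real.log M)⌋₊ with hf
  have hmaps : ∀ b ∈ B, f b ∈ Finset.range (⌊2 / δ⌋₊ + 1) := by
    intro b hb
    rw [Finset.mem_range, Nat.lt_succ_iff]
    apply Nat.floor_le_floor
    rw [div_le_div_iff₀ hdl hδ]
    have h1 := Real.log_le_log (by linarith [(hr b hb).1]) (hr b hb).2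
    rw [Real.log_rpow (by linarith)] at h1
    nlinarith
  have hcard : (Finset.range (⌊2 / δ⌋₊ + 1)).card * n ≤ B.card := by
    rw [Finset.card_range]; exact hB
  obtain ⟨k, -, hk⟩ := Finset.exists_le_card_fiber_of_mul_le_card_of_maps_to hmaps
    ⟨0, by simp⟩ hcard
  refine ⟨k, _, Finset.filter_subset _ _, hk, ?_⟩
  intro b hb
  obtain ⟨hb1, hb2⟩ := Finset.mem_filter.1 hb
  have hrb := hr b hb1
  have hlr : 0 ≤ Real.log (r b) := Real.log_nonneg hrb.1
  have h1 : (k : ℝ) ≤ Real.log (r b) / (δ * Real.log M) := by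
    rw [← hb2]; exact Nat.floor_le (by positivity)
  have h2 : Real.log (r b) / (δ * Real.log M) < k + 1 := by
    rw [← hb2]; exact Nat.lt_floor_add_one _
  rw [le_div_iff₀ hdl] at h1
  rw [div_lt_iff₀ hdl] at h2
  constructor
  · rw [Real.rpow_def_of_pos (by linarith), ← Real.log_le_log_iff (by positivity) (by linarith),
      Real.log_exp]
    nlinarith
  · rw [Real.rpow_def_of_pos (by linarith), ← Real.log_le_log_iff (by linarith) (by positivity),
      Real.log_exp]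
    nlinarith

/-- The number of `b` with a leading coefficient is at least `N - 1`. -/
theorem card_leading (n : ℕ) (P R : ℤ[X]) (hP : P.natDegree ≤ n) (hR : R.natDegree = n)
    (hR0 : R ≠ 0) (N : ℕ) :
    N ≤ ((Finset.Icc (1 : ℤ) (N + 1)).filter fun b => (P + C b * R).natDegree = n).card := by
  classical
  have hlc : R.coeff n ≠ 0 := by
    rw [← hR]; exact leadingCoeff_ne_zero.2 hR0
  have hdeg : ∀ b : ℤ, (P + C b * R).natDegree ≤ n := by
    intro b
    apply natDegree_add_le_of_degree_le hP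
    exact (natDegree_C_mul_le b R).trans hR.le
  set S := Finset.Icc (1 : ℤ) (N + 1)
  have hS : S.card = N + 1 := by
    simp [S]
  have hcompl : (S.filter fun b => ¬ (P + C b * R).natDegree = n).card ≤ 1 := by
    rw [Finset.card_le_one]
    intro a ha b hb
    have key : ∀ b ∈ S.filter (fun b => ¬ (P + C b * R).natDegree = n),
        P.coeff n + b * R.coeff n = 0 := by
      intro b hb
      have h1 := (Finset.mem_filter.1 hb).2
      have h2 : (P + C b * R).coeff n = 0 := by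
        apply coeff_eq_zero_of_natDegree_lt
        exact lt_of_le_of_ne (hdeg b) h1
      simpa using h2
    have h1 := key a ha
    have h2 := key b hb
    have h3 : (a - b) * R.coeff n = 0 := by linear_combination h1 - h2
    rcases mul_eq_zero.1 h3 with h | h
    · linarith
    · exact absurd h hlc
  have hsum := Finset.card_filter_add_card_filter_not (s := S)
    (fun b => (P + C b * R).natDegree = n)
  omega

theorem pair (n : ℕ) (ζ : ℝ) (w ε : ℝ) (hε : 0 < ε)
    (hw : 2 * ε ≤ w) (h : w ∈ UnifSet n ζ) (N : ℕ) :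
    ∃ K1 K3 M0 : ℝ, 1 ≤ K1 ∧ 0 < K3 ∧ 1 ≤ M0 ∧ ∀ Q : ℤ[X], Irreducible Q → 1 ≤ Q.natDegree →
      Q.natDegree ≤ n → M0 ≤ mm Q → |aeval ζ Q| ≤ (mm Q) ^ (-(w - ε)) →
      ∃ P R : ℤ[X], P.natDegree ≤ n ∧ R.natDegree = n ∧
        Squarefree (R.map (Int.castRingHom ℂ)) ∧
        IsCoprime (P.map (Int.castRingHom ℂ)) (R.map (Int.castRingHom ℂ)) ∧
        ∀ b : ℤ, 1 ≤ b → b ≤ N + 1 → mm (P + C b * R) ≤ K1 * mm Q ∧
          |aeval ζ (P + C b * R)| * (mm (P + C b * R)) ^ (w - 2 * ε) ≤ K3 * (mm Q) ^ (-ε) := by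
  obtain ⟨X0, hX0⟩ := eventually_atTop.1 h
  set Sn : ℝ := (3 * n + 1) ^ n with hSn
  have hSn1 : 1 ≤ Sn := by
    apply one_le_pow₀
    have : (0 : ℝ) ≤ n := Nat.cast_nonneg n
    linarith
  set Z : ℝ := (|ζ| + (3 * n + 1)) ^ n with hZ
  have hZ0 : 0 ≤ Z := by positivity
  set K1 : ℝ := (n + 1) * (1 + (N + 1) * (2 ^ n * Sn)) with hK1
  have hK1' : 1 ≤ K1 := by
    have h1 : (0 : ℝ) ≤ (N + 1) * (2 ^ n * Sn) := by positivity
    have h2 : (0 : ℝ) ≤ n := Nat.cast_nonneg n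
    nlinarith
  set K2 : ℝ := (2 * (n + 1)) ^ w + (N + 1) * Z with hK2
  have hK2' : 0 < K2 := by
    have : (0 : ℝ) < (2 * (n + 1)) ^ w := Real.rpow_pos_of_pos (by positivity) _
    positivity
  refine ⟨K1, K2 * K1 ^ (w - 2 * ε), max 1 (2 * (n + 1) * X0), hK1',
    mul_pos hK2' (Real.rpow_pos_of_pos (by linarith) _), le_max_left _ _, ?_⟩
  intro Q hQ hd hdn hM0 hQζ
  set M := mm Q with hM
  have hM1 : 1 ≤ M := (le_max_left _ _).trans hM0
  have hn0 : (0 : ℝ) < 2 * (n + 1) := by positivity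
  have hX : X0 ≤ M / (2 * (n + 1)) := by
    rw [le_div_iff₀ hn0]
    have := (le_max_right _ _).trans hM0
    linarith
  obtain ⟨P, hP0, hPn, hPh, -, hPζ⟩ := hX0 _ hX
  have hmP : mm P < M := by
    have h1 := mm_le_height hPn
    have h2 : ((n : ℝ) + 1) * height P ≤ (n + 1) * (M / (2 * (n + 1))) :=
      mul_le_mul_of_nonneg_left hPh (by positivity)
    have h3 : ((n : ℝ) + 1) * (M / (2 * (n + 1))) = M / 2 := by
      field_simp
    linarith
  have hPQ : ¬ Q ∣ P := by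
    intro hdvd
    have := mm_le_of_dvd hP0 hdvd
    linarith
  obtain ⟨S, hSdeg, hS0, hSm, hSζ, hSsq, hSco⟩ := exists_S n P Q hQ hd hdn hP0 hPn hPQ
  refine ⟨P, Q * S, hPn, hSdeg, hSsq, hSco, ?_⟩
  intro b hb1 hb2
  have hb1' : (1 : ℝ) ≤ b := by exact_mod_cast hb1
  have hb2' : (b : ℝ) ≤ N + 1 := by exact_mod_cast hb2
  have hRh : (height (Q * S) : ℝ) ≤ 2 ^ n * (M * Sn) := by
    have h1 := height_le_mm (n := n) (P := Q * S) hSdeg.le
    rw [mm_mul] at h1
    refine h1.trans ?_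
    apply mul_le_mul_of_nonneg_left _ (by positivity)
    exact mul_le_mul_of_nonneg_left hSm (by linarith)
  have hFdeg : (P + C b * (Q * S)).natDegree ≤ n := by
    apply natDegree_add_le_of_degree_le hPn
    exact (natDegree_C_mul_le b _).trans hSdeg.le
  have hFh : (height (P + C b * (Q * S)) : ℝ) ≤ M * (1 + (N + 1) * (2 ^ n * Sn)) := by
    apply height_le_of (by positivity)
    intro i
    have h1 : (((P + C b * (Q * S)).coeff i : ℤ) : ℝ) = (P.coeff i : ℝ) + b * ((Q * S).coeff i : ℝ) := by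
      rw [coeff_add, coeff_C_mul]; push_cast; ring
    rw [h1]
    have h2 := abs_coeff_le_height P i
    have h3 := abs_coeff_le_height (Q * S) i
    have h4 : M / (2 * (n + 1)) ≤ M := by
      rw [div_le_iff₀ hn0]
      have : (0 : ℝ) ≤ n := Nat.cast_nonneg n
      nlinarith
    calc |(P.coeff i : ℝ) + b * ((Q * S).coeff i : ℝ)|
        ≤ |(P.coeff i : ℝ)| + |b * ((Q * S).coeff i : ℝ)| := abs_add_le _ _
      _ = |(P.coeff i : ℝ)| + b * |((Q * S).coeff i : ℝ)| := by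
          rw [abs_mul, abs_of_nonneg (by linarith : (0 : ℝ) ≤ b)]
      _ ≤ M + (N + 1) * (2 ^ n * (M * Sn)) := by
          apply add_le_add (by linarith)
          apply mul_le_mul hb2' (h3.trans hRh) (abs_nonneg _) (by positivity)
      _ = M * (1 + (N + 1) * (2 ^ n * Sn)) := by ring
  have hmF : mm (P + C b * (Q * S)) ≤ K1 * M := by
    have h1 := mm_le_height hFdeg
    refine h1.trans ?_
    calc ((n : ℝ) + 1) * height (P + C b * (Q * S))
        ≤ (n + 1) * (M * (1 + (N + 1) * (2 ^ n * Sn))) :=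
          mul_le_mul_of_nonneg_left hFh (by positivity)
      _ = K1 * M := by rw [hK1]; ring
  refine ⟨hmF, ?_⟩
  have hFζ : |aeval ζ (P + C b * (Q * S))| ≤ K2 * M ^ (-(w - ε)) := by
    have h1 : aeval ζ (P + C b * (Q * S)) = aeval ζ P + b * (aeval ζ Q * aeval ζ S) := by
      simp
    rw [h1]
    have h2 : (M / (2 * (n + 1))) ^ (-w) ≤ (2 * (n + 1)) ^ w * M ^ (-(w - ε)) := by
      rw [Real.div_rpow (by linarith) hn0.le, Real.rpow_neg hn0.le, div_inv_eq_mul, mul_comm]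
      apply mul_le_mul_of_nonneg_left _ (by positivity)
      apply Real.rpow_le_rpow_of_exponent_le hM1
      linarith
    calc |aeval ζ P + b * (aeval ζ Q * aeval ζ S)|
        ≤ |aeval ζ P| + |b * (aeval ζ Q * aeval ζ S)| := abs_add_le _ _
      _ = |aeval ζ P| + b * (|aeval ζ Q| * |aeval ζ S|) := by
          rw [abs_mul, abs_mul, abs_of_nonneg (by linarith : (0 : ℝ) ≤ b)]
      _ ≤ (2 * (n + 1)) ^ w * M ^ (-(w - ε)) + (N + 1) * (M ^ (-(w - ε)) * Z) := by
          apply add_le_add (hPζ.trans h2)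
          apply mul_le_mul hb2' _ (by positivity) (by positivity)
          exact mul_le_mul hQζ (hSζ ζ) (abs_nonneg _) (by positivity)
      _ = K2 * M ^ (-(w - ε)) := by rw [hK2]; ring
  have hmF0 : 0 ≤ mm (P + C b * (Q * S)) := mahlerMeasure_nonneg _
  calc |aeval ζ (P + C b * (Q * S))| * mm (P + C b * (Q * S)) ^ (w - 2 * ε)
      ≤ (K2 * M ^ (-(w - ε))) * (K1 * M) ^ (w - 2 * ε) := by
        apply mul_le_mul hFζ _ (by positivity) (by positivity)
        exact Real.rpow_le_rpow hmF0 hmF (by linarith)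
    _ = K2 * K1 ^ (w - 2 * ε) * M ^ (-ε) := by
        rw [Real.mul_rpow (by linarith) (by linarith)]
        have : M ^ (-(w - ε)) * M ^ (w - 2 * ε) = M ^ (-ε) := by
          rw [← Real.rpow_add (by linarith)]; ring_nf
        rw [← this]; ring

theorem step (n : ℕ) (hn : 1 ≤ n) (ζ : ℝ) (hζ : Transcendental ℤ ζ) (w ε : ℝ) (hε : 0 < ε)
    (hw : 4 * ε ≤ w) (h : w ∈ UnifSet n ζ) (Y0 : ℝ) :
    ∃ Y : ℝ, Y0 ≤ Y ∧ ∃ F : ℤ[X], Irreducible F ∧ F.natDegree = n ∧
      (height F : ℝ) ≤ Y ^ (1 + 3 * ε) ∧ |aeval ζ F| ≤ Y ^ (-(w - 2 * ε) + 3 * ε) := by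
  classical
  have hw0 : 0 < w := by linarith
  have hn0 : (0 : ℝ) < n := by exact_mod_cast hn
  set K9 : ℝ := max (2 ^ n) (max 1 |ζ| ^ n) with hK9
  have hev := (good_irreducible n hn ζ K9 (w - 2 * ε) ε hε).and
    (((tendsto_rpow_atTop (by linarith : 0 < 3 * ε)).eventually_ge_atTop ((2 : ℝ) ^ n)).and
      ((eventually_ge_atTop Y0).and (eventually_ge_atTop 1)))
  obtain ⟨Y1, hY1⟩ := eventually_atTop.1 hev
  set δ : ℝ := ε / (2 * n * w) with hδdef
  have hδ : 0 < δ := by positivity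
  set N : ℕ := (⌊2 / δ⌋₊ + 1) * n with hN
  obtain ⟨K1, K3, M0, hK1, hK3, hM01, hpair⟩ := pair n ζ w ε hε (by linarith) h N
  -- choose M large
  have hev2 : ∀ᶠ M : ℝ in atTop, M0 ≤ M ∧ 1 < M ∧ K1 ≤ M ∧ Y1 ≤ M ^ δ ∧ Y1 ≤ M ∧
      K3 ≤ M ^ (ε / 2) := by
    filter_upwards [eventually_ge_atTop M0, eventually_gt_atTop 1, eventually_ge_atTop K1,
      (tendsto_rpow_atTop hδ).eventually_ge_atTop Y1, eventually_ge_atTop Y1,
      (tendsto_rpow_atTop (by linarith : 0 < ε / 2)).eventually_ge_atTop K3] with M h1 h2 h3 h4 h5 h6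
    exact ⟨h1, h2, h3, h4, h5, h6⟩
  obtain ⟨M1, hM1⟩ := eventually_atTop.1 hev2
  obtain ⟨Q, hQ, hd, hdn, hQM, hQζ⟩ := exists_irred_large n ζ hζ w ε hε (by linarith) h M1
  obtain ⟨hM0, hM1', hMK1, hMY, hMY', hMK3⟩ := hM1 _ hQM
  set M := mm Q with hM
  have hMpos : 0 < M := by linarith
  by_cases hdeq : Q.natDegree = n
  · obtain ⟨-, h2n, hY0, hY1'⟩ := hY1 M hMY'
    refine ⟨M, hY0, Q, hQ, hdeq, ?_, ?_⟩
    · refine (height_le_mm hdn).trans ?_
      rw [Real.rpow_add hMpos, Real.rpow_one, mul_comm (M : ℝ)]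
      exact mul_le_mul_of_nonneg_right h2n hMpos.le
    · refine hQζ.trans ?_
      apply Real.rpow_le_rpow_of_exponent_le hY1'
      linarith
  obtain ⟨P, R, hPn, hRn, hsq, hco, hF⟩ := hpair Q hQ hd hdn hM0 hQζ
  have hR0 : R ≠ 0 := by
    rintro rfl
    rw [Polynomial.map_zero] at hsq
    exact not_squarefree_zero hsq
  set B : Finset ℤ := (Finset.Icc (1 : ℤ) (N + 1)).filter fun b => (P + C b * R).natDegree = n
    with hB
  have hBcard : N ≤ B.card := card_leading n P R hPn hRn hR0 N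
  -- the good factors
  have hfac : ∀ b : ℤ, b ∈ B → ∃ D : ℤ[X], Irreducible D ∧ 1 ≤ D.natDegree ∧
      D ∣ P + C b * R ∧ |aeval ζ D| * (mm D) ^ (w - 2 * ε) ≤ M ^ (-(ε / (2 * n))) := by
    intro b hb
    obtain ⟨hb1, hb2⟩ := Finset.mem_filter.1 hb
    obtain ⟨hb3, hb4⟩ := Finset.mem_Icc.1 hb1
    obtain ⟨-, h2⟩ := hF b hb3 hb4
    apply exists_factor n ζ hζ (P + C b * R) (by omega) hb2.le (w - 2 * ε) _ (by linarith)
      (Real.rpow_pos_of_pos hMpos _)
    · apply Real.rpow_le_one_of_one_le_of_nonpos hM1'.le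
      have : 0 ≤ ε / (2 * n) := by positivity
      linarith
    · refine h2.trans ?_
      rw [← Real.rpow_natCast, ← Real.rpow_mul hMpos.le]
      have e1 : -(ε / (2 * n)) * (n : ℝ) = -(ε / 2) := by field_simp
      rw [e1]
      calc K3 * M ^ (-ε) ≤ M ^ (ε / 2) * M ^ (-ε) :=
            mul_le_mul_of_nonneg_right hMK3 (Real.rpow_pos_of_pos hMpos _).le
        _ = M ^ (-(ε / 2)) := by
            rw [← Real.rpow_add hMpos]; ring_nf
  choose! D hD using hfac
  have hDne : ∀ b ∈ B, P + C b * R ≠ 0 := by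
    intro b hb h0
    have := (Finset.mem_filter.1 hb).2
    rw [h0, natDegree_zero] at this
    omega
  obtain ⟨k, B', hB'B, hB'card, hwin⟩ := windows n M δ hM1' hδ B (fun b => mm (D b)) (by
    intro b hb
    refine ⟨one_le_mm (hD b hb).1.ne_zero, ?_⟩
    obtain ⟨hb1, hb2⟩ := Finset.mem_filter.1 hb
    obtain ⟨hb3, hb4⟩ := Finset.mem_Icc.1 hb1
    have h1 := mm_le_of_dvd (hDne b hb) (hD b hb).2.2.1
    have h2 := (hF b hb3 hb4).1
    have h3 : K1 * M ≤ M ^ (2 : ℝ) := by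
      have : M ^ (2 : ℝ) = M * M := by
        rw [Real.rpow_two]; ring
      rw [this]
      exact mul_le_mul_of_nonneg_right hMK1 hMpos.le
    exact h1.trans (h2.trans h3)) hBcard
  set Y : ℝ := M ^ (((k : ℝ) + 1) * δ) with hY
  have hYM : M ^ δ ≤ Y := by
    apply Real.rpow_le_rpow_of_exponent_le hM1'.le
    have : 0 ≤ (k : ℝ) * δ := by positivity
    linarith
  obtain ⟨hgood, h2n, hY0, hY1'⟩ := hY1 Y (hMY.trans hYM)
  have hYpos : 0 < Y := by linarith
  have hval : ∀ b ∈ B', |aeval ζ (D b)| ≤ Y ^ (-(w - 2 * ε)) := by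
    intro b hb
    have hbB := hB'B hb
    have h1 := (hD b hbB).2.2.2
    have h2 := (hwin b hb).1
    have hpos : 0 < M ^ ((k : ℝ) * δ) := Real.rpow_pos_of_pos hMpos _
    have h3 : (M ^ ((k : ℝ) * δ)) ^ (w - 2 * ε) ≤ (mm (D b)) ^ (w - 2 * ε) :=
      Real.rpow_le_rpow hpos.le h2 (by linarith)
    have h4 : |aeval ζ (D b)| * (M ^ ((k : ℝ) * δ)) ^ (w - 2 * ε) ≤ M ^ (-(ε / (2 * n))) :=
      (mul_le_mul_of_nonneg_left h3 (abs_nonneg _)).trans h1
    have h5 : |aeval ζ (D b)| ≤ M ^ (-(ε / (2 * n))) / (M ^ ((k : ℝ) * δ)) ^ (w - 2 * ε) := by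
      rw [le_div_iff₀ (Real.rpow_pos_of_pos hpos _)]
      exact h4
    refine h5.trans ?_
    rw [hY, ← Real.rpow_mul hMpos.le, ← Real.rpow_mul hMpos.le, ← Real.rpow_sub hMpos]
    apply Real.rpow_le_rpow_of_exponent_le hM1'.le
    have e1 : δ * w = ε / (2 * n) := by
      rw [hδdef]; field_simp
    have e2 : δ * (w - 2 * ε) ≤ ε / (2 * n) := by
      rw [← e1]
      apply mul_le_mul_of_nonneg_left _ hδ.le
      linarith
    nlinarith
  have hheight : ∀ b ∈ B', (height (D b) : ℝ) ≤ 2 ^ n * Y := by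
    intro b hb
    have hbB := hB'B hb
    have hdeg : (D b).natDegree ≤ n := by
      have := natDegree_le_of_dvd (hD b hbB).2.2.1 (hDne b hbB)
      exact this.trans (Finset.mem_filter.1 hbB).2.le
    refine (height_le_mm hdeg).trans ?_
    exact mul_le_mul_of_nonneg_left (hwin b hb).2 (by positivity)
  by_cases hex : ∃ b ∈ B', (D b).natDegree = n
  · obtain ⟨b, hb, hbn⟩ := hex
    refine ⟨Y, hY0, D b, (hD b (hB'B hb)).1, hbn, ?_, ?_⟩
    · refine (hheight b hb).trans ?_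
      rw [Real.rpow_add hYpos, Real.rpow_one, mul_comm (Y : ℝ)]
      exact mul_le_mul_of_nonneg_right h2n hYpos.le
    · refine (hval b hb).trans ?_
      apply Real.rpow_le_rpow_of_exponent_le hY1'
      linarith
  push Not at hex
  have hlt : ∀ b ∈ B', (D b).natDegree < n := by
    intro b hb
    have hbB := hB'B hb
    have := natDegree_le_of_dvd (hD b hbB).2.2.1 (hDne b hbB)
    exact lt_of_le_of_ne (this.trans (Finset.mem_filter.1 hbB).2.le) (hex b hb)
  -- the family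
  let ι : Type := {x : ℤ × ℕ // x.1 ∈ B' ∧ x.2 + (D x.1).natDegree ≤ n}
  let G : ι → ℤ[X] := fun x => D x.1.1 * X ^ x.1.2
  have hGdeg : ∀ i, (G i).natDegree ≤ n := by
    intro i
    have h1 : (G i).natDegree ≤ (D i.1.1).natDegree + i.1.2 := by
      refine natDegree_mul_le.trans ?_
      exact Nat.add_le_add_left (natDegree_X_pow_le _) _
    have h2 := i.2.2
    omega
  obtain ⟨j, hj⟩ := exists_det n G hGdeg (by
    intro φ hφ
    apply span_all n hn P R hPn hRn hsq hco B' hB'card D _ φ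
    · intro b hb i hi
      exact hφ ⟨(b, i), hb, hi⟩
    · intro b hb
      exact ⟨(Finset.mem_filter.1 (hB'B hb)).2, (hD b (hB'B hb)).2.2.1, hlt b hb⟩)
  obtain ⟨F, hF1, hF2, hF3, hF4⟩ := hgood (fun i => G (j i)) (fun i => hGdeg _) (by
    intro i
    have h1 : height (G (j i)) ≤ height (D (j i).1.1) := by
      have : (height (G (j i)) : ℝ) ≤ height (D (j i).1.1) := by
        apply height_le_of (Nat.cast_nonneg _)
        intro l
        rcases lt_or_ge l (j i).1.2 with hl | hl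
        · have : (G (j i)).coeff l = 0 := by
            simp only [G]
            rw [coeff_mul_X_pow', if_neg (by omega)]
          rw [this]; simp
        · have : (G (j i)).coeff l = (D (j i).1.1).coeff (l - (j i).1.2) := by
            simp only [G]
            rw [coeff_mul_X_pow', if_pos hl]
          rw [this]
          exact abs_coeff_le_height _ _
      exact_mod_cast this
    have h2 : (height (G (j i)) : ℝ) ≤ height (D (j i).1.1) := by exact_mod_cast h1
    refine h2.trans ((hheight _ (j i).2.1).trans ?_)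
    exact mul_le_mul_of_nonneg_right (le_max_left _ _) hYpos.le) (by
    intro i
    have h1 : aeval ζ (G (j i)) = aeval ζ (D (j i).1.1) * ζ ^ (j i).1.2 := by
      simp [G]
    rw [h1, abs_mul, abs_pow]
    have h2 := hval _ (j i).2.1
    have h3 : |ζ| ^ (j i).1.2 ≤ K9 := by
      refine le_trans ?_ (le_max_right _ _)
      have h4 : |ζ| ^ (j i).1.2 ≤ (max 1 |ζ|) ^ (j i).1.2 :=
        pow_le_pow_left₀ (abs_nonneg _) (le_max_right _ _) _
      refine h4.trans ?_
      apply pow_le_pow_right₀ (le_max_left _ _)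
      have := (j i).2.2
      omega
    rw [mul_comm]
    exact mul_le_mul h3 h2 (abs_nonneg _) (by positivity)) hj
  exact ⟨Y, hY0, F, hF1, hF2, hF3, hF4⟩

end Pool.Agent.Lib.H70W
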